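import Pool.Agent.Helper70.Isg.Goals2

/-!
# Packet KEY0
-/

open MeasureTheory Filter Topology

noncomputable section

namespace Pool.Agent.Helper70.Isg

/-- the square root of the effective ratio -/
def et (A B C A' J : ℝ) : ℝ :=
  Real.exp (2 * (A - A')) * Real.cosh (B + J + C) / Real.cosh (B + J - C)

theorem et_pos (A B C A' J : ℝ) : 0 < et A B C A' J := by
  unfold et
  have := Real.cosh_pos (B + J + C)
  have := Real.cosh_pos (B + J - C)
  positivity

/-- the main function -/
def DD (A B C A' B' C' J : ℝ) : ℝ :=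
  Real.cosh (2 * (B' + J + C')) - et A B C A' J ^ 2 * Real.cosh (2 * (B' + J - C'))

/-- the function `W` -/
def WW (A B C A' B' C' J : ℝ) : ℝ :=
  Real.sinh (2 * (B' + J + C')) / et A B C A' J - et A B C A' J * Real.sinh (2 * (B' + J - C'))

theorem keyI_iff (A B C A' B' C' T J c : ℝ) :
    keyI A (B + J) C A' (B' + J) C' T c ↔
      DD A B C A' B' C' J ≤
        (Real.exp (2 * c) * (et A B C A' J ^ 2 * Real.exp (-2 * T) - Real.exp (2 * T)) +
          Real.exp (-2 * c) * (et A B C A' J ^ 2 * Real.exp (2 * T) - Real.exp (-2 * T))) / 2 := by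
  unfold keyI DD
  set η := et A B C A' J with hη
  have hq := Real.cosh_pos (B + J - C)
  have h1 : Real.exp (4 * A) * Real.cosh (B + J + C) ^ 2 =
      Real.exp (4 * A') * Real.cosh (B + J - C) ^ 2 * η ^ 2 := by
    rw [hη]
    unfold et
    have : Real.exp (4 * A) = Real.exp (4 * A') * Real.exp (2 * (A - A')) ^ 2 := by
      rw [← Real.exp_nat_mul, ← Real.exp_add]
      congr 1
      push_cast
      ring
    rw [this]
    field_simp
  have h2 : Real.cosh (2 * (c + T)) = (Real.exp (2 * c) * Real.exp (2 * T) +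
      Real.exp (-2 * c) * Real.exp (-2 * T)) / 2 := by
    rw [Real.cosh_eq, ← Real.exp_add, ← Real.exp_add]
    ring_nf
  have h3 : Real.cosh (2 * (c - T)) = (Real.exp (2 * c) * Real.exp (-2 * T) +
      Real.exp (-2 * c) * Real.exp (2 * T)) / 2 := by
    rw [Real.cosh_eq, ← Real.exp_add, ← Real.exp_add]
    ring_nf
  have h4 : Real.exp (4 * A) * (Real.cosh (2 * (B' + J - C')) + Real.cosh (2 * (c - T))) *
      Real.cosh (B + J + C) ^ 2 = (Real.exp (4 * A') * Real.cosh (B + J - C) ^ 2) *
        (η ^ 2 * (Real.cosh (2 * (B' + J - C')) + Real.cosh (2 * (c - T)))) := by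
    calc _ = (Real.exp (4 * A) * Real.cosh (B + J + C) ^ 2) *
          (Real.cosh (2 * (B' + J - C')) + Real.cosh (2 * (c - T))) := by ring
      _ = _ := by rw [h1]; ring
  have h5 : Real.exp (4 * A') * (Real.cosh (2 * (B' + J + C')) + Real.cosh (2 * (c + T))) *
      Real.cosh (B + J - C) ^ 2 = (Real.exp (4 * A') * Real.cosh (B + J - C) ^ 2) *
        (Real.cosh (2 * (B' + J + C')) + Real.cosh (2 * (c + T))) := by ring
  rw [h4, h5, mul_le_mul_iff_right₀ (by positivity), h2, h3]
  constructor <;> intro h <;> linarith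

theorem quad_of (D P N : ℝ) (hP : 0 < P) (hN : 0 < N)
    (h : ∀ c : ℝ, D ≤ (Real.exp (2 * c) * P + Real.exp (-2 * c) * N) / 2) (hD : 0 ≤ D) :
    D ^ 2 ≤ P * N := by
  have h1 := h (Real.log (N / P) / 4)
  set a := Real.exp (2 * (Real.log (N / P) / 4)) with ha
  have ha0 : 0 < a := Real.exp_pos _
  have h2 : Real.exp (-2 * (Real.log (N / P) / 4)) = a⁻¹ := by
    rw [ha, ← Real.exp_neg]; congr 1; ring
  have h3 : a ^ 2 = N / P := by
    rw [ha, ← Real.exp_nat_mul]
    have : ((2 : ℕ) : ℝ) * (2 * (Real.log (N / P) / 4)) = Real.log (N / P) := by push_cast; ring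
    rw [this, Real.exp_log (by positivity)]
  rw [h2] at h1
  have h4 : a⁻¹ * N = a * P := by
    have : N = a ^ 2 * P := by rw [h3]; field_simp
    rw [this]
    field_simp
  rw [h4] at h1
  have h5 : D ≤ a * P := by linarith
  have h6 : (a * P) ^ 2 = P * N := by
    calc (a * P) ^ 2 = a ^ 2 * P * P := by ring
      _ = _ := by rw [h3]; field_simp
  rw [← h6]
  exact pow_le_pow_left₀ hD h5 2

theorem quad_not (D P N c : ℝ) (hP : 0 < P) (hN : 0 < N)
    (h : ¬ D ≤ (Real.exp (2 * c) * P + Real.exp (-2 * c) * N) / 2) :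
    0 < D ∧ P * N < D ^ 2 := by
  push Not at h
  have ha : 0 < Real.exp (2 * c) := Real.exp_pos _
  have hb : Real.exp (2 * c) * Real.exp (-2 * c) = 1 := by
    rw [← Real.exp_add]; simp
  have hb0 : 0 < Real.exp (-2 * c) := Real.exp_pos _
  set a := Real.exp (2 * c)
  set b := Real.exp (-2 * c)
  have h0 : 0 < (a * P + b * N) / 2 := by positivity
  have h1 : 0 < D := h0.trans h
  refine ⟨h1, ?_⟩
  have h2 : ((a * P + b * N) / 2) ^ 2 < D ^ 2 := pow_lt_pow_left₀ h h0.le (by norm_num)
  have h3 : P * N = (a * P) * (b * N) := by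
    calc P * N = (a * b) * (P * N) := by rw [hb]; ring
      _ = _ := by ring
  nlinarith [sq_nonneg (a * P - b * N)]

theorem ident3 (A B C A' B' C' T J : ℝ) :
    (et A B C A' J ^ 2 * Real.exp (-2 * T) - Real.exp (2 * T)) *
        (et A B C A' J ^ 2 * Real.exp (2 * T) - Real.exp (-2 * T)) - DD A B C A' B' C' J ^ 2 =
      et A B C A' J ^ 2 *
        (2 * (Real.cosh (4 * C') - Real.cosh (4 * T)) - WW A B C A' B' C' J ^ 2) := by
  have hη := et_pos A B C A' J
  unfold DD WW
  set η := et A B C A' J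
  set X := 2 * (B' + J + C') with hX
  set Y := 2 * (B' + J - C') with hY
  have h4 : Real.cosh (4 * C') = Real.cosh X * Real.cosh Y - Real.sinh X * Real.sinh Y := by
    rw [← Real.cosh_sub]; congr 1; rw [hX, hY]; ring
  have hT : Real.cosh (4 * T) = (Real.exp (2 * T) ^ 2 + Real.exp (-2 * T) ^ 2) / 2 := by
    rw [Real.cosh_eq, ← Real.exp_nat_mul, ← Real.exp_nat_mul]
    push_cast
    ring_nf
  have hTT : Real.exp (2 * T) * Real.exp (-2 * T) = 1 := by
    rw [← Real.exp_add]; simp
  have hx := Real.cosh_sq X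
  have hy := Real.cosh_sq Y
  have hw : η ^ 2 * (Real.sinh X / η - η * Real.sinh Y) ^ 2 =
      (Real.sinh X - η ^ 2 * Real.sinh Y) ^ 2 := by
    field_simp
  rw [mul_sub (η ^ 2) (2 * (Real.cosh (4 * C') - Real.cosh (4 * T))), hw, h4, hT]
  set e := Real.exp (2 * T)
  set f := Real.exp (-2 * T)
  have h5 : (η ^ 2 * f - e) * (η ^ 2 * e - f) = η ^ 4 + 1 - η ^ 2 * (e ^ 2 + f ^ 2) := by
    linear_combination (η ^ 4 + 1) * hTT
  rw [h5]
  have e1 : Real.cosh X ^ 2 = Real.sinh X ^ 2 + 1 := hx
  have e2 : Real.cosh Y ^ 2 = Real.sinh Y ^ 2 + 1 := hy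
  linear_combination (-1) * e1 - η ^ 4 * e2

theorem ident6 (A B C A' B' C' M J : ℝ) :
    ∑ k ∈ Finset.Icc (-2 : ℤ) 2, qc A B C A' B' C' M k * Real.exp (2 * J) ^ k =
      (WW A B C A' B' C' J - M) * (2 * (Real.cosh (B + J + C) * Real.cosh (B + J - C))) := by
  have hI : Finset.Icc (-2 : ℤ) 2 = {-2, -1, 0, 1, 2} := by decide
  rw [hI, Finset.sum_insert (by decide), Finset.sum_insert (by decide),
    Finset.sum_insert (by decide), Finset.sum_insert (by decide), Finset.sum_singleton]
  have hp := Real.cosh_pos (B + J + C)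
  have hq := Real.cosh_pos (B + J - C)
  have hW : WW A B C A' B' C' J * (2 * (Real.cosh (B + J + C) * Real.cosh (B + J - C))) =
      2 * (Real.exp (-2 * (A - A')) * Real.sinh (2 * (B' + J + C')) * Real.cosh (B + J - C) ^ 2 -
        Real.exp (2 * (A - A')) * Real.sinh (2 * (B' + J - C')) * Real.cosh (B + J + C) ^ 2) := by
    unfold WW et
    have hE := Real.exp_pos (2 * (A - A'))
    have : Real.exp (-2 * (A - A')) = (Real.exp (2 * (A - A')))⁻¹ := by
      rw [← Real.exp_neg]; congr 1; ring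
    rw [this]
    field_simp
  rw [sub_mul, hW]
  have q2 : qc A B C A' B' C' M 2 =
    -(1 / 2) * Real.exp (2 * (B + B')) * Real.sinh (2 * ((A - A') + (C - C'))) := by
    simp [qc]
  have q1 : qc A B C A' B' C' M 1 =
    Real.exp (2 * B') * Real.sinh (2 * (C' - (A - A'))) - M / 2 * Real.exp (2 * B) := by
    simp [qc]
  have q0 : qc A B C A' B' C' M 0 =
    (Real.exp (-2 * (A - A')) * Real.sinh (2 * ((C + C') - (B - B')))
      + Real.exp (2 * (A - A')) * Real.sinh (2 * ((C + C') + (B - B')))) / 2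
      - M * Real.cosh (2 * C) := by
    simp [qc]
  have q1' : qc A B C A' B' C' M (-1) =
    Real.exp (-2 * B') * Real.sinh (2 * (C' + (A - A'))) - M / 2 * Real.exp (-2 * B) := by
    unfold qc; rw [if_neg (by decide), if_neg (by decide), if_neg (by decide), if_pos rfl]
  have q2' : qc A B C A' B' C' M (-2) =
    -(1 / 2) * Real.exp (-2 * (B + B')) * Real.sinh (2 * ((C - C') - (A - A'))) := by
    unfold qc
    rw [if_neg (by decide), if_neg (by decide), if_neg (by decide), if_neg (by decide), if_pos rfl]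
  rw [q2, q1, q0, q1', q2']
  have z1 : Real.exp (2 * J) ^ (1 : ℤ) = Real.exp (2 * J) := zpow_one _
  have z0 : Real.exp (2 * J) ^ (0 : ℤ) = 1 := zpow_zero _
  have z2 : Real.exp (2 * J) ^ (2 : ℤ) = Real.exp J ^ 4 := by
    have : Real.exp (2 * J) = Real.exp J ^ 2 := by
      rw [← Real.exp_nat_mul]; push_cast; rfl
    rw [this]; norm_cast; ring
  have z1' : Real.exp (2 * J) ^ (-1 : ℤ) = (Real.exp J ^ 2)⁻¹ := by
    have : Real.exp (2 * J) = Real.exp J ^ 2 := by
      rw [← Real.exp_nat_mul]; push_cast; rfl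
    rw [this, zpow_neg_one]
  have z2' : Real.exp (2 * J) ^ (-2 : ℤ) = (Real.exp J ^ 4)⁻¹ := by
    have : Real.exp (2 * J) = Real.exp J ^ 2 := by
      rw [← Real.exp_nat_mul]; push_cast; rfl
    rw [this, zpow_neg]; congr 1; norm_cast; ring
  rw [z1, z0, z2, z1', z2']
  have e2 : ∀ x : ℝ, Real.exp (2 * x) = Real.exp x ^ 2 := by
    intro x; rw [← Real.exp_nat_mul]; push_cast; rfl
  have e2' : ∀ x : ℝ, Real.exp (-2 * x) = (Real.exp x ^ 2)⁻¹ := by
    intro x; rw [← Real.exp_nat_mul, ← Real.exp_neg]; congr 1; push_cast; ring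
  simp only [Real.sinh_eq, Real.cosh_eq, Real.exp_neg, e2, e2', Real.exp_add, Real.exp_sub]
  have := Real.exp_pos A
  have := Real.exp_pos B
  have := Real.exp_pos C
  have := Real.exp_pos A'
  have := Real.exp_pos B'
  have := Real.exp_pos C'
  have := Real.exp_pos J
  set a := Real.exp A
  set b := Real.exp B
  set c := Real.exp C
  set a' := Real.exp A'
  set b' := Real.exp B'
  set c' := Real.exp C'
  set j := Real.exp J
  field_simp
  ring

theorem et_mono (A B C A' J : ℝ) (hB : 0 ≤ B) (hC : 0 ≤ C) (hJ : 0 ≤ J) :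
    et A B C A' 0 ≤ et A B C A' J := by
  unfold et
  have h1 := Real.cosh_pos (B + 0 - C)
  have h2 := Real.cosh_pos (B + J - C)
  have hE := Real.exp_pos (2 * (A - A'))
  rw [div_le_div_iff₀ h1 h2]
  have key : Real.cosh (B + 0 + C) * Real.cosh (B + J - C) ≤
      Real.cosh (B + J + C) * Real.cosh (B + 0 - C) := by
    have p1 : Real.cosh (B + 0 + C) * Real.cosh (B + J - C) =
        (Real.cosh (J + 2 * B) + Real.cosh (2 * C - J)) / 2 := by
      have e1 : J + 2 * B = (B + 0 + C) + (B + J - C) := by ring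
      have e2 : 2 * C - J = (B + 0 + C) - (B + J - C) := by ring
      rw [e1, e2]
      have f1 := Real.cosh_add (B + 0 + C) (B + J - C)
      have f2 := Real.cosh_sub (B + 0 + C) (B + J - C)
      linarith
    have p2 : Real.cosh (B + J + C) * Real.cosh (B + 0 - C) =
        (Real.cosh (J + 2 * B) + Real.cosh (J + 2 * C)) / 2 := by
      have e1 : J + 2 * B = (B + J + C) + (B + 0 - C) := by ring
      have e2 : J + 2 * C = (B + J + C) - (B + 0 - C) := by ring
      rw [e1, e2]
      have f1 := Real.cosh_add (B + J + C) (B + 0 - C)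
      have f2 := Real.cosh_sub (B + J + C) (B + 0 - C)
      linarith
    have p3 : Real.cosh (2 * C - J) ≤ Real.cosh (J + 2 * C) := by
      rw [Real.cosh_le_cosh, abs_le, abs_of_nonneg (by linarith)]
      constructor <;> linarith
    rw [p1, p2]
    linarith
  calc Real.exp (2 * (A - A')) * Real.cosh (B + 0 + C) * Real.cosh (B + J - C)
      = Real.exp (2 * (A - A')) * (Real.cosh (B + 0 + C) * Real.cosh (B + J - C)) := by ring
    _ ≤ Real.exp (2 * (A - A')) * (Real.cosh (B + J + C) * Real.cosh (B + 0 - C)) :=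
        mul_le_mul_of_nonneg_left key hE.le
    _ = _ := by ring

theorem et_cont (A B C A' : ℝ) : Continuous (et A B C A') := by
  unfold et
  refine Continuous.div (by fun_prop) (by fun_prop) fun J => (Real.cosh_pos _).ne'

theorem DD_cont (A B C A' B' C' : ℝ) : Continuous (DD A B C A' B' C') := by
  unfold DD
  have := et_cont A B C A'
  fun_prop

theorem pf_KEY0 (hPOSY : S_POSY) (hSIGN : S_SIGN) : S_KEY0 := by
  intro A B C A' B' C' T J1 hB hC hTB hTC hAC hAB hBC hstr hkey hJ1
  by_contra hcon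
  push Not at hcon
  obtain ⟨c1, hc1⟩ := hcon
  have hB' : 0 ≤ B' := (abs_nonneg T).trans hTB
  have hC' : 0 ≤ C' := (abs_nonneg T).trans hTC
  -- lower bound of `et`
  have hlam0 : Real.exp (4 * |T|) < et A B C A' 0 ^ 2 := by
    have hq := Real.cosh_pos (B - C)
    have h1 : Real.exp (4 * A) = Real.exp (4 * A') * Real.exp (2 * (A - A')) ^ 2 := by
      rw [← Real.exp_nat_mul, ← Real.exp_add]
      congr 1
      push_cast
      ring
    unfold et
    rw [add_zero, div_pow, lt_div_iff₀ (by positivity), mul_pow]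
    rw [h1] at hstr
    have hA := Real.exp_pos (4 * A')
    have h2 : Real.exp (4 * A') * (Real.exp (4 * |T|) * Real.cosh (B - C) ^ 2) <
        Real.exp (4 * A') * (Real.exp (2 * (A - A')) ^ 2 * Real.cosh (B + C) ^ 2) := by
      calc _ = Real.exp (4 * A') * Real.exp (4 * |T|) * Real.cosh (B - C) ^ 2 := by ring
        _ < _ := hstr
        _ = _ := by ring
    exact lt_of_mul_lt_mul_left h2 hA.le
  have hlam : ∀ J, 0 ≤ J → Real.exp (4 * |T|) < et A B C A' J ^ 2 := fun J hJ =>
    hlam0.trans_le (pow_le_pow_left₀ (et_pos _ _ _ _ _).le (et_mono A B C A' J hB hC hJ) 2)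
  have h41 : 1 ≤ Real.exp (4 * |T|) := Real.one_le_exp (by positivity)
  have hP : ∀ J, 0 ≤ J → 0 < et A B C A' J ^ 2 * Real.exp (-2 * T) - Real.exp (2 * T) := by
    intro J hJ
    have h1 := hlam J hJ
    have h2 : Real.exp (4 * T) ≤ Real.exp (4 * |T|) := by
      rw [Real.exp_le_exp]; have := le_abs_self T; linarith
    have h3 : Real.exp (2 * T) = Real.exp (4 * T) * Real.exp (-2 * T) := by
      rw [← Real.exp_add]; congr 1; ring
    have h4 := Real.exp_pos (-2 * T)
    rw [h3]
    have : Real.exp (4 * T) * Real.exp (-2 * T) < et A B C A' J ^ 2 * Real.exp (-2 * T) :=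
      mul_lt_mul_of_pos_right (h2.trans_lt h1) h4
    linarith
  have hN : ∀ J, 0 ≤ J → 0 < et A B C A' J ^ 2 * Real.exp (2 * T) - Real.exp (-2 * T) := by
    intro J hJ
    have h1 := hlam J hJ
    have h2 : Real.exp (-4 * T) ≤ Real.exp (4 * |T|) := by
      rw [Real.exp_le_exp]; have := neg_abs_le T; linarith
    have h3 : Real.exp (-2 * T) = Real.exp (-4 * T) * Real.exp (2 * T) := by
      rw [← Real.exp_add]; congr 1; ring
    have h4 := Real.exp_pos (2 * T)
    rw [h3]
    have : Real.exp (-4 * T) * Real.exp (2 * T) < et A B C A' J ^ 2 * Real.exp (2 * T) :=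
      mul_lt_mul_of_pos_right (h2.trans_lt h1) h4
    linarith
  -- the number `M`
  have hcT : Real.cosh (4 * T) ≤ Real.cosh (4 * C') := by
    rw [Real.cosh_le_cosh, abs_mul, abs_mul, abs_of_nonneg hC']
    have : |(4 : ℝ)| = 4 := by norm_num
    rw [this]; linarith
  set M := Real.sqrt (2 * (Real.cosh (4 * C') - Real.cosh (4 * T))) with hM
  have hM0 : 0 ≤ M := Real.sqrt_nonneg _
  have hM2 : M ^ 2 = 2 * (Real.cosh (4 * C') - Real.cosh (4 * T)) :=
    Real.sq_sqrt (by linarith)
  have hs0 : 0 ≤ Real.sinh (2 * C') := by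
    rw [Real.sinh_nonneg_iff]; positivity
  have hMs : M ≤ 2 * Real.sinh (2 * C') := by
    apply le_of_sq_le_sq _ (by positivity)
    rw [hM2]
    have h1 : Real.cosh (4 * C') = 2 * Real.sinh (2 * C') ^ 2 + 1 := by
      have : 4 * C' = 2 * (2 * C') := by ring
      rw [this, Real.cosh_two_mul, Real.cosh_sq]; ring
    have h2 := Real.one_le_cosh (4 * T)
    rw [h1]
    nlinarith
  -- failure at `J1`
  have hf := hc1
  rw [keyI_iff] at hf
  obtain ⟨hD1, hD1'⟩ := quad_not _ _ _ _ (hP J1 hJ1) (hN J1 hJ1) hf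
  have hWJ1 : M ^ 2 < WW A B C A' B' C' J1 ^ 2 := by
    have h1 := ident3 A B C A' B' C' T J1
    have h2 : et A B C A' J1 ^ 2 * (M ^ 2 - WW A B C A' B' C' J1 ^ 2) < 0 := by
      rw [hM2, ← h1]; linarith
    have h3 : 0 < et A B C A' J1 ^ 2 := by have := et_pos A B C A' J1; positivity
    by_contra hle
    push Not at hle
    have : 0 ≤ et A B C A' J1 ^ 2 * (M ^ 2 - WW A B C A' B' C' J1 ^ 2) :=
      mul_nonneg h3.le (by linarith)
    linarith
  have hWpos : 0 < WW A B C A' B' C' J1 := by
    have hη := et_pos A B C A' J1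
    have hl := hlam J1 hJ1
    unfold DD at hD1
    unfold WW
    set η := et A B C A' J1
    set X := 2 * (B' + J1 + C') with hX
    set Y := 2 * (B' + J1 - C') with hY
    have hX0 : 0 ≤ X := by rw [hX]; positivity
    have hl1 : 1 < η ^ 2 := h41.trans_lt hl
    have hsX : 0 ≤ Real.sinh X := Real.sinh_nonneg_iff.2 hX0
    have hcY := Real.cosh_pos Y
    have h1 : (η ^ 2 * Real.cosh Y) ^ 2 < Real.cosh X ^ 2 :=
      pow_lt_pow_left₀ (by linarith) (by positivity) (by norm_num)
    have h2 : (η ^ 2 * Real.sinh Y) ^ 2 < Real.sinh X ^ 2 := by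
      have e1 := Real.cosh_sq X
      have e2 := Real.cosh_sq Y
      have : (η ^ 2 * Real.cosh Y) ^ 2 = (η ^ 2) ^ 2 * (Real.sinh Y ^ 2 + 1) := by
        rw [mul_pow, e2]
      rw [this, e1] at h1
      have h5 : 1 ≤ (η ^ 2) ^ 2 := one_le_pow₀ hl1.le
      rw [mul_pow]
      nlinarith
    have h3 : η ^ 2 * Real.sinh Y < Real.sinh X := by
      by_contra hle
      push Not at hle
      have := pow_le_pow_left₀ hsX hle 2
      linarith
    have h4 : Real.sinh X / η - η * Real.sinh Y = (Real.sinh X - η ^ 2 * Real.sinh Y) / η := by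
      field_simp
    rw [h4]
    apply div_pos (by linarith) hη
  have hW1 : M < WW A B C A' B' C' J1 := lt_of_pow_lt_pow_left₀ 2 hWpos.le hWJ1
  -- the point `Ja`
  obtain ⟨Ja, hJa0, hJa1, hWa⟩ : ∃ Ja, 0 ≤ Ja ∧ Ja < J1 ∧ WW A B C A' B' C' Ja ^ 2 ≤ M ^ 2 := by
    have conv : ∀ J, 0 ≤ J → DD A B C A' B' C' J ^ 2 ≤
        (et A B C A' J ^ 2 * Real.exp (-2 * T) - Real.exp (2 * T)) *
        (et A B C A' J ^ 2 * Real.exp (2 * T) - Real.exp (-2 * T)) →
        WW A B C A' B' C' J ^ 2 ≤ M ^ 2 := by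
      intro J hJ h
      have h1 := ident3 A B C A' B' C' T J
      rw [← hM2] at h1
      have h3 : 0 < et A B C A' J ^ 2 := by have := et_pos A B C A' J; positivity
      by_contra hlt
      push Not at hlt
      have : et A B C A' J ^ 2 * (M ^ 2 - WW A B C A' B' C' J ^ 2) < 0 :=
        mul_neg_of_pos_of_neg h3 (by linarith)
      linarith
    rcases lt_or_ge 0 (DD A B C A' B' C' 0) with h0 | h0
    · have hJ1' : 0 < J1 := by
        rcases hJ1.lt_or_eq with h | h
        · exact h
        · exfalso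
          rw [← h] at hc1
          simp only [add_zero] at hc1
          exact hc1 (hkey c1)
      refine ⟨0, le_rfl, hJ1', conv 0 le_rfl ?_⟩
      refine quad_of _ _ _ (hP 0 le_rfl) (hN 0 le_rfl) (fun c => ?_) h0.le
      rw [← keyI_iff]
      simpa using hkey c
    · have hivt := intermediate_value_Icc hJ1 (DD_cont A B C A' B' C').continuousOn
      obtain ⟨Ja, ⟨ha0, ha1⟩, ha⟩ := hivt ⟨h0, hD1.le⟩
      refine ⟨Ja, ha0, lt_of_le_of_ne ha1 ?_, conv Ja ha0 ?_⟩
      · rintro rfl
        rw [ha] at hD1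
        exact lt_irrefl _ hD1
      · rw [ha]
        have := mul_pos (hP Ja ha0) (hN Ja ha0)
        simpa using this.le
  have hWa' : WW A B C A' B' C' Ja ≤ M := le_of_sq_le_sq hWa hM0
  -- the point `-B'`
  have hWh : WW A B C A' B' C' (-B') =
      Real.sinh (2 * C') * ((et A B C A' (-B'))⁻¹ + et A B C A' (-B')) := by
    unfold WW
    have e1 : 2 * (B' + -B' + C') = 2 * C' := by ring
    have e2 : 2 * (B' + -B' - C') = -(2 * C') := by ring
    rw [e1, e2, Real.sinh_neg]
    ring
  rcases hC'.lt_or_eq with hC'pos | hC'0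
  · have hspos : 0 < Real.sinh (2 * C') := Real.sinh_pos_iff.2 (by positivity)
    have hlt : -B' < Ja ∨ -B' = Ja := (by linarith : -B' ≤ Ja).lt_or_eq
    rcases hlt with hlt | heq
    · obtain ⟨k₁, k₂, hk, hin, hout⟩ := hSIGN A B C A' B' C' M hC hC' hM0 hMs hAC hAB hBC
      have hpos := hPOSY (qc A B C A' B' C' M) k₁ k₂ (Real.exp (2 * -B')) (Real.exp (2 * Ja))
        (Real.exp (2 * J1)) hk hin hout (Real.exp_pos _) (by rw [Real.exp_lt_exp]; linarith)
        (by rw [Real.exp_lt_exp]; linarith) ?_ ?_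
      · rw [ident6] at hpos
        have := Real.cosh_pos (B + Ja + C)
        have := Real.cosh_pos (B + Ja - C)
        have : (WW A B C A' B' C' Ja - M) *
            (2 * (Real.cosh (B + Ja + C) * Real.cosh (B + Ja - C))) ≤ 0 :=
          mul_nonpos_of_nonpos_of_nonneg (by linarith) (by positivity)
        linarith
      · rw [ident6]
        have := Real.cosh_pos (B + -B' + C)
        have := Real.cosh_pos (B + -B' - C)
        apply mul_nonneg _ (by positivity)
        rw [hWh]
        have hη := et_pos A B C A' (-B')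
        have h2 : 2 ≤ (et A B C A' (-B'))⁻¹ + et A B C A' (-B') := by
          set η := et A B C A' (-B')
          have : η⁻¹ + η - 2 = (η - 1) ^ 2 / η := by field_simp; ring
          have : 0 ≤ (η - 1) ^ 2 / η := by positivity
          linarith
        nlinarith
      · rw [ident6]
        have := Real.cosh_pos (B + J1 + C)
        have := Real.cosh_pos (B + J1 - C)
        apply mul_pos (by linarith) (by positivity)
    · have hB0 : B' = 0 := by linarith
      have hJ0 : Ja = 0 := by linarith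
      rw [← heq, hWh] at hWa'
      have hη := et_pos A B C A' (-B')
      have hl : 1 < et A B C A' (-B') ^ 2 := by
        rw [hB0, neg_zero]; exact h41.trans_lt (hlam 0 le_rfl)
      set η := et A B C A' (-B')
      have hη1 : 1 < η := by
        by_contra hle
        push Not at hle
        have := pow_le_one₀ (n := 2) hη.le hle
        linarith
      have h2 : 2 < η⁻¹ + η := by
        have e : η⁻¹ + η - 2 = (η - 1) ^ 2 / η := by field_simp; ring
        have : 0 < (η - 1) ^ 2 / η := by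
          apply div_pos _ hη
          have : 0 < η - 1 := by linarith
          positivity
        linarith
      nlinarith
  · -- `C' = 0`
    have hT0 : T = 0 := by
      have : |T| ≤ 0 := by rw [hC'0]; exact hTC
      exact abs_eq_zero.1 (le_antisymm this (abs_nonneg _))
    unfold DD at hD1
    rw [← hC'0, add_zero, sub_zero] at hD1
    have hl := h41.trans_lt (hlam J1 hJ1)
    have hX := Real.cosh_pos (2 * (B' + J1))
    nlinarith

end Pool.Agent.Helper70.Isg
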