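import Pool.Agent.Helper70.Isg.Goals2

/-!
# Packet RCNT
-/

open MeasureTheory Filter Topology

noncomputable section

namespace Pool.Agent.Helper70.Isg

/-- number of successes among the first letters -/
def zer (c : ℕ → Fin 3) (n : ℕ) : ℕ := ∑ i ∈ Finset.range n, if c i = 0 then 1 else 0

/-- number of arrivals -/
def arr (n : ℕ) : ℕ := ∑ i ∈ Finset.range n, if i % 6 = 0 ∧ 0 < i then 1 else 0

theorem lf_count (c : ℕ → Fin 3) (n : ℕ) (h : (lf 6 c n).1 ≠ 0) :
    (lf 6 c n).1 + zer c n = 1 + arr n := by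
  induction n with
  | zero => simp [lf, zer, arr]
  | succ n ih =>
    have hn : (lf 6 c n).1 ≠ 0 := by
      intro h0
      apply h
      simp [lf, h0]
    have ih := ih hn
    have hz : zer c (n + 1) = zer c n + if c n = 0 then 1 else 0 := by
      unfold zer; rw [Finset.sum_range_succ]
    have ha : arr (n + 1) = arr n + if n % 6 = 0 ∧ 0 < n then 1 else 0 := by
      unfold arr; rw [Finset.sum_range_succ]
    rw [hz, ha]
    simp only [lf]
    have hpos : 0 < (lf 6 c n).1 := Nat.pos_of_ne_zero hn
    by_cases h6 : n % 6 = 0 ∧ 0 < n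
    · by_cases hc : c n = 0
      · simp [h6, hpos, hc]
        omega
      · simp [h6, hpos, hc]
        omega
    · have h6' : ¬ (n % 6 = 0 ∧ 0 < n ∧ 0 < (lf 6 c n).1) := fun h => h6 ⟨h.1, h.2.1⟩
      by_cases hc : c n = 0
      · simp only [h6', h6, if_false, hn, hc, if_true]
        omega
      · simp only [h6', h6, if_false, hn, hc, if_false]
        omega

theorem arr_mul (n : ℕ) : 1 + arr (6 * (n + 1)) = n + 1 := by
  induction n with
  | zero => rfl
  | succ n ih =>
    have : arr (6 * (n + 1 + 1)) = arr (6 * (n + 1)) + 1 := by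
      have h6 : 6 * (n + 1 + 1) = 6 * (n + 1) + 6 := by ring
      have hs : ∀ k, arr (k + 1) = arr k + if k % 6 = 0 ∧ 0 < k then 1 else 0 := by
        intro k
        unfold arr
        rw [Finset.sum_range_succ]
      rw [h6]
      set q := 6 * (n + 1) with hq
      rw [hs (q + 5), hs (q + 4), hs (q + 3), hs (q + 2), hs (q + 1), hs q]
      have e0 : q % 6 = 0 ∧ 0 < q := ⟨by omega, by omega⟩
      have e1 : ¬ ((q + 1) % 6 = 0 ∧ 0 < q + 1) := by omega
      have e2 : ¬ ((q + 2) % 6 = 0 ∧ 0 < q + 2) := by omega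
      have e3 : ¬ ((q + 3) % 6 = 0 ∧ 0 < q + 3) := by omega
      have e4 : ¬ ((q + 4) % 6 = 0 ∧ 0 < q + 4) := by omega
      have e5 : ¬ ((q + 5) % 6 = 0 ∧ 0 < q + 5) := by omega
      rw [if_pos e0, if_neg e1, if_neg e2, if_neg e3, if_neg e4, if_neg e5]
    omega

theorem pf_RCNT : S_RCNT := by
  intro n
  classical
  rcases Nat.eq_zero_or_pos n with rfl | hn
  · simp only [mul_zero, pow_zero, mul_one]
    have : (Finset.univ.filter fun x : Fin (6 * 0) → Fin 3 =>
        (lf 6 (fun i => if h : i < 6 * 0 then x ⟨i, h⟩ else 0) (6 * 0)).1 ≠ 0).card ≤ 1 := by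
      refine (Finset.card_le_univ _).trans ?_
      simp
    exact_mod_cast this
  · obtain ⟨m, rfl⟩ : ∃ m, n = m + 1 := ⟨n - 1, by omega⟩
    set N := 6 * (m + 1) with hN
    have h1 : ∀ x : Fin N → Fin 3,
        (lf 6 (fun i => if h : i < N then x ⟨i, h⟩ else 0) N).1 ≠ 0 →
        (1 : ℝ) ≤ 2 ^ (m + 1) * ∏ i, if x i = 0 then 1 / 2 else 1 := by
      intro x hx
      have h2 := lf_count _ _ hx
      have ha : 1 + arr N = m + 1 := arr_mul m
      rw [ha] at h2
      have h3 : zer (fun i => if h : i < N then x ⟨i, h⟩ else 0) N =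
          (Finset.univ.filter fun i => x i = 0).card := by
        unfold zer
        rw [Finset.sum_range, Finset.card_filter]
        refine Finset.sum_congr rfl fun i _ => ?_
        simp
      rw [h3] at h2
      have h4 : (Finset.univ.filter fun i => x i = 0).card ≤ m + 1 := by omega
      rw [Finset.prod_ite, Finset.prod_const_one, mul_one, Finset.prod_const]
      calc (1 : ℝ) = 2 ^ (m + 1) * (1 / 2) ^ (m + 1) := by
            rw [← mul_pow]; norm_num
        _ ≤ _ := by
            apply mul_le_mul_of_nonneg_left _ (by positivity)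
            exact pow_le_pow_of_le_one (by norm_num) (by norm_num) h4
    calc ((Finset.univ.filter fun x : Fin N → Fin 3 =>
          (lf 6 (fun i => if h : i < N then x ⟨i, h⟩ else 0) N).1 ≠ 0).card : ℝ)
        = ∑ x ∈ Finset.univ.filter fun x : Fin N → Fin 3 =>
          (lf 6 (fun i => if h : i < N then x ⟨i, h⟩ else 0) N).1 ≠ 0, (1 : ℝ) := by simp
      _ ≤ ∑ x ∈ Finset.univ.filter fun x : Fin N → Fin 3 =>
          (lf 6 (fun i => if h : i < N then x ⟨i, h⟩ else 0) N).1 ≠ 0,
            2 ^ (m + 1) * ∏ i, (if x i = 0 then 1 / 2 else 1 : ℝ) := by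
          refine Finset.sum_le_sum fun x hx => h1 x ?_
          simpa using hx
      _ ≤ ∑ x : Fin N → Fin 3, 2 ^ (m + 1) * ∏ i, (if x i = 0 then 1 / 2 else 1 : ℝ) := by
          refine Finset.sum_le_sum_of_subset_of_nonneg (Finset.filter_subset _ _) ?_
          intro x _ _
          have : 0 ≤ ∏ i, (if x i = 0 then 1 / 2 else 1 : ℝ) :=
            Finset.prod_nonneg fun i _ => by split_ifs <;> norm_num
          positivity
      _ = 2 ^ (m + 1) * (5 / 2) ^ N := by
          rw [← Finset.mul_sum]
          congr 1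
          have := Finset.prod_univ_sum (fun _ : Fin N => (Finset.univ : Finset (Fin 3)))
            (fun _ a => (if a = 0 then 1 / 2 else 1 : ℝ))
          rw [Fintype.piFinset_univ] at this
          rw [← this]
          have h3 : (∑ j : Fin 3, (if j = 0 then 1 / 2 else 1 : ℝ)) = 5 / 2 := by
            rw [Fin.sum_univ_three, if_pos rfl, if_neg (by decide), if_neg (by decide)]
            norm_num
          rw [h3, Finset.prod_const, Finset.card_univ, Fintype.card_fin]
      _ = (2 * (5 / 2) ^ 6) ^ (m + 1) := by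
          rw [mul_pow, ← pow_mul, hN]
      _ ≤ ((7 / 10) * 3 ^ 6) ^ (m + 1) := by
          apply pow_le_pow_left₀ (by positivity)
          norm_num
      _ = _ := by
          rw [mul_pow, ← pow_mul, hN]

end Pool.Agent.Helper70.Isg
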