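import Pool.Agent.Helper70.Isg.Goals2

/-!
# Packet WORD
-/

open MeasureTheory Filter Topology

noncomputable section

namespace Pool.Agent.Helper70.Isg

theorem card_word {I : Type} [Fintype I] [DecidableEq I] {N : ℕ} (l : Fin N → I)
    (x : Fin N → Fin 3) (hl : Function.Injective l) :
    (Finset.univ.filter fun D : I → Fin 3 => ∀ n, D (l n) = x n).card * 3 ^ N =
      3 ^ Fintype.card I := by
  classical
  set t : I → Finset (Fin 3) := fun i => if h : ∃ n, l n = i then {x h.choose} else Finset.univ
    with ht
  have h1 : (Finset.univ.filter fun D : I → Fin 3 => ∀ n, D (l n) = x n) =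
      Fintype.piFinset t := by
    ext D
    simp only [Finset.mem_filter, Finset.mem_univ, true_and, Fintype.mem_piFinset]
    constructor
    · intro h i
      by_cases hi : ∃ n, l n = i
      · simp only [ht, hi, dite_true, Finset.mem_singleton]
        rw [← h hi.choose, hi.choose_spec]
      · simp [ht, hi]
    · intro h n
      have h2 := h (l n)
      have hi : ∃ m, l m = l n := ⟨n, rfl⟩
      simp only [ht, hi, dite_true, Finset.mem_singleton] at h2
      rw [h2]
      congr 1
      exact hl hi.choose_spec
  rw [h1, Fintype.card_piFinset]
  have h2 : ∀ i, (t i).card = if i ∈ Finset.univ.image l then 1 else 3 := by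
    intro i
    by_cases hi : ∃ n, l n = i
    · have : i ∈ Finset.univ.image l := by simpa using hi
      simp only [ht, hi, dite_true, this, if_true, Finset.card_singleton]
    · have : i ∉ Finset.univ.image l := by simpa using hi
      simp only [ht, hi, dite_false, this, if_false]
      simp
  rw [Finset.prod_congr rfl fun i _ => h2 i, Finset.prod_ite]
  simp only [Finset.prod_const_one, one_mul, Finset.prod_const]
  have h3 : (Finset.univ.image l).card = N := by
    rw [Finset.card_image_of_injective _ hl, Finset.card_univ, Fintype.card_fin]
  rw [← pow_add]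
  congr 1
  have h4 : (Finset.univ.filter fun i => i ∉ Finset.univ.image l) =
      Finset.univ \ Finset.univ.image l := by
    ext i; simp
  rw [h4, Finset.card_sdiff_of_subset (Finset.subset_univ _), h3, Finset.card_univ]
  have : N ≤ Fintype.card I := by
    rw [← h3]; exact Finset.card_le_univ _
  omega

theorem pf_WORD : S_WORD := by
  intro I _ _ N lb G hpred hinj
  classical
  have h1 : (Finset.univ.filter fun D : I → Fin 3 => ∃ x ∈ G, ∀ n, D (lb n x) = x n) =
      G.biUnion fun x => Finset.univ.filter fun D : I → Fin 3 => ∀ n, D (lb n x) = x n := by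
    ext D; simp
  rw [h1, Finset.card_biUnion, Finset.sum_mul]
  · rw [Finset.sum_congr rfl fun x _ => card_word (fun n => lb n x) x (hinj x)]
    simp
  · intro x _ x' _ hxx
    rw [Function.onFun, Finset.disjoint_left]
    intro D hD hD'
    simp only [Finset.mem_filter, Finset.mem_univ, true_and] at hD hD'
    apply hxx
    funext n
    induction n using WellFoundedLT.induction with
    | _ n ih =>
      rw [← hD n, ← hD' n, hpred n x x' fun m hm => ih m hm]

end Pool.Agent.Helper70.Isg
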