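import Pool.Agent.Helper70.Isg.Final
import Pool.Agent.Helper70.Isg.Rcnt
import Pool.Agent.Helper70.Isg.Word
import Pool.Agent.Helper70.Isg.Key0
import Pool.Agent.Helper14.Isg.Coup
import Pool.Agent.Helper17.Isg.Chain
import Pool.Agent.Helper17.Isg.E1
import Pool.Agent.Helper27.Isg.Cons
import Pool.Agent.Helper27.Isg.Flip
import Pool.Agent.Helper27.Isg.Key
import Pool.Agent.Helper27.Isg.Leaf
import Pool.Agent.Helper27.Isg.P2
import Pool.Agent.Helper31.Isg.Locb
import Pool.Agent.Helper31.Isg.Mond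
import Pool.Agent.Helper31.Isg.Sign
import Pool.Agent.Helper32.Isg.PsiP
import Pool.Agent.Helper32.Isg.SSM
import Pool.Agent.Helper33.Isg.Step
import Pool.Agent.Helper43.Isg.DSS
import Pool.Agent.Helper43.Isg.Lieb
import Pool.Agent.Helper43.Isg.Res
import Pool.Agent.Helper50.Isg.LIM
import Pool.Agent.Helper51.Isg.MonPsi
import Pool.Agent.Helper63.Isg.Fkg3
import Pool.Agent.Helper63.Isg.Merge
import Pool.Agent.Helper65.Isg.FkDec
import Pool.Agent.Helper65.Isg.Path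
import Pool.Agent.Helper68.Isg.Det
import Pool.Agent.Helper68.Isg.Nonu
import Pool.Agent.Helper75.Isg.Keyz
import Pool.Agent.Helper87.Isg.FKCor
import Pool.Agent.Helper87.Isg.FKDm
import Pool.Agent.Helper88.Isg.MonJ
import Pool.Agent.Helper88.Isg.Sand
import Pool.Agent.Helper90.Isg.Evg
import Pool.Agent.Helper90.Isg.Greedy
import Pool.Agent.Helper90.Isg.Monb
import Pool.Agent.Helper90.Isg.Posy
import Pool.Agent.Helper90.Isg.Tran
import Pool.Agent.Helper97.Isg.Fkfkg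
import Pool.Agent.Helper98.Isg.Gibx
import Pool.Agent.Helper98.Isg.Lawd
import Pool.Agent.Helper33.Isg.Exu
import Pool.Agent.Helper5.Isg.Law1
import Pool.Agent.Helper52.Isg.Diff
import Pool.Agent.Helper52.Isg.Sharp
import Pool.Agent.Helper52.Isg.Tail
import Pool.Agent.Helper75.Isg.Basic
import Pool.Agent.Helper88.Isg.Meas
import Pool.Agent.Helper88.Isg.Samp

/-!
# Assembly of the packets for MP_600500_pr
-/

open MeasureTheory Filter Topology

noncomputable section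

namespace Pool.Agent.Helper70.Isg

theorem assembled : S_FINAL := by
  have hBASIC := Pool.Agent.Helper75.Isg.pf_BASIC
  have POSY := Pool.Agent.Helper90.Isg.pf_POSY
  have SIGN := Pool.Agent.Helper31.Isg.pf_SIGN
  have KEY0 := pf_KEY0 POSY SIGN
  have KEY := Pool.Agent.Helper27.Isg.pf_KEY KEY0
  have KEYZ := Pool.Agent.Helper75.Isg.pf_KEYZ KEY
  have FKG3 := Pool.Agent.Helper63.Isg.fkg3
  have MERGE := Pool.Agent.Helper63.Isg.merge
  have STEP := Pool.Agent.Helper33.Isg.pf_STEP KEYZ FKG3 MERGE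
  have DSS := Pool.Agent.Helper43.Isg.pf_DSS STEP
  have FKGH := Pool.Agent.Helper88.Isg.pf_FKGH
  have E1 := Pool.Agent.Helper17.IsgE1.E1 DSS FKGH
  have LEAF := Pool.Agent.Helper27.Isg.pf_LEAF E1
  have MONJ := Pool.Agent.Helper88.Isg.pf_MONJ
  have FKCOR := Pool.Agent.Helper87.Isg.pf_FKCOR
  have FKFKG := Pool.Agent.Helper97.Isg.fkfkg
  have FKDM := Pool.Agent.Helper87.Isg.pf_FKDM
  have FKDEC := Pool.Agent.Helper65.Isg.fkdec FKCOR FKFKG FKDM
  have EVG := Pool.Agent.Helper90.Isg.pf_EVG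
  have CONS := Pool.Agent.Helper27.Isg.pf_CONS hBASIC
  have MONB := Pool.Agent.Helper90.Isg.pf_MONB hBASIC EVG FKGH
  have MOND := Pool.Agent.Helper31.Isg.pf_MOND hBASIC CONS MONB
  have TRAN := Pool.Agent.Helper90.Isg.pf_TRAN hBASIC
  have FLIP := Pool.Agent.Helper27.Isg.pf_FLIP
  have LOCB := Pool.Agent.Helper31.Isg.pf_LOCB
  have LIEB := Pool.Agent.Helper43.Isg.pf_LIEB EVG CONS MONB FLIP LEAF
  have MONPSI := Pool.Agent.Helper51.Isg.monpsi hBASIC MONJ
  have GIBX := Pool.Agent.Helper98.Isg.gibx hBASIC CONS LOCB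
  have NONU := Pool.Agent.Helper68.Isg.pf_NONU GIBX FLIP
  have DIFF := Pool.Agent.Helper52.Isg.DIFF hBASIC EVG FKDEC
  have SHARP := Pool.Agent.Helper52.Isg.SHARP hBASIC LIEB DIFF MONPSI MONB MOND TRAN FLIP NONU
  have SSM := Pool.Agent.Helper32.Isg.ssm hBASIC EVG E1
  have SAND := Pool.Agent.Helper88.Isg.pf_SAND hBASIC CONS MONB TRAN SSM
  have GREEDY := Pool.Agent.Helper90.Isg.pf_GREEDY
  have CHAIN := Pool.Agent.Helper17.IsgChain.chain hBASIC
  have P2 := Pool.Agent.Helper27.Isg.pf_P2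
  have DET := Pool.Agent.Helper68.Isg.pf_DET hBASIC
  have COUP := Pool.Agent.Helper14.Isg.pf_COUP hBASIC
  have PATH := Pool.Agent.Helper65.Isg.Path.path hBASIC P2
  have TAIL := Pool.Agent.Helper52.Isg.TAIL hBASIC PATH
  have EXU := Pool.Agent.Helper33.Isg.pf_EXU
  have SAMP := Pool.Agent.Helper88.Isg.pf_SAMP hBASIC P2 GREEDY CHAIN
  have MEAS := Pool.Agent.Helper88.Isg.pf_MEAS hBASIC TRAN
  have LIM := Pool.Agent.Helper50.Isg.s_lim hBASIC P2 SAND SAMP EXU COUP MEAS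
  have RES := Pool.Agent.Helper43.Isg.pf_RES pf_RCNT
  have LAW1 := Pool.Agent.Helper5.Isg.law1 pf_WORD pf_RCNT P2
  have LAWD := Pool.Agent.Helper98.Isg.lawd LAW1 P2
  have PSI := Pool.Agent.Helper32.Isg.psi_packet
  exact final hBASIC P2 SHARP TAIL LIM GIBX LAWD RES PSI MEAS DET

end Pool.Agent.Helper70.Isg
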