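import Mathlib

/-!
# The Ising model on `ℤ^d` and finitary codings of its Gibbs measures

Definitions used by the hand-in for MP_600500_pr.
-/

open MeasureTheory

noncomputable section

namespace Pool.Agent.Helper70.Isg

/-- The sites of the lattice `ℤ^d`. -/
abbrev Site (d : ℕ) := Fin d → ℤ

/-- Spin configurations on `ℤ^d`: `true` is the spin `+1`, `false` the spin `-1`. -/
abbrev Cfg (d : ℕ) := Site d → Bool

/-- The numerical value of a spin. -/
def sg (b : Bool) : ℝ := if b then 1 else -1

variable {d : ℕ}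

/-- The `ℓ¹` norm of a site. -/
def l1 (v : Site d) : ℕ := ∑ i, (v i).natAbs

/-- The `2 d` nearest neighbours of a site. -/
def nbrs (u : Site d) : Finset (Site d) :=
  Finset.univ.image fun p : Fin d × Bool => u + Pi.single p.1 (if p.2 then (1 : ℤ) else -1)

/-- The configuration equal to `τ` in `Λ` and to `η` outside `Λ`. -/
def glue (Λ : Finset (Site d)) (τ : Λ → Bool) (η : Cfg d) : Cfg d :=
  fun v => if h : v ∈ Λ then τ ⟨v, h⟩ else η v

/-- Minus the Ising Hamiltonian of `σ` in `Λ`: the sum of `σ_u σ_v` over all nearest neighbour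
pairs `{u, v}` that meet `Λ` (a pair inside `Λ` is met twice, hence the factor `1 / 2`). -/
def enrg (Λ : Finset (Site d)) (σ : Cfg d) : ℝ :=
  ∑ u ∈ Λ, ∑ v ∈ nbrs u, (if v ∈ Λ then 1 / 2 else 1) * (sg (σ u) * sg (σ v))

/-- The Boltzmann weight at inverse temperature `β`. -/
def wt (β : ℝ) (Λ : Finset (Site d)) (σ : Cfg d) : ℝ := Real.exp (β * enrg Λ σ)

/-- The partition function in `Λ` with boundary condition `η`. -/
def pf (β : ℝ) (Λ : Finset (Site d)) (η : Cfg d) : ℝ := ∑ τ : Λ → Bool, wt β Λ (glue Λ τ η)

/-- The expectation of `f` under the finite volume Gibbs distribution in `Λ` with boundary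
condition `η`. -/
def ev (β : ℝ) (Λ : Finset (Site d)) (η : Cfg d) (f : Cfg d → ℝ) : ℝ :=
  (∑ τ : Λ → Bool, f (glue Λ τ η) * wt β Λ (glue Λ τ η)) / pf β Λ η

/-- `μ` is a Gibbs measure of the nearest neighbour ferromagnetic Ising model on `ℤ^d` at inverse
temperature `β` (DLR equations in all finite volumes). -/
def IsGibbs (d : ℕ) (β : ℝ) (μ : Measure (Cfg d)) : Prop :=
  IsProbabilityMeasure μ ∧ ∀ (Λ : Finset (Site d)) (B : Set (Cfg d)), MeasurableSet B →
    μ.real B = ∫ η, ev β Λ η (B.indicator 1) ∂μ

/-- The critical inverse temperature `β_c(d)`: the infimum of all `β ≥ 0` for which there are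
several Gibbs measures (`⊤` if there is no such `β`). -/
def betaC (d : ℕ) : EReal :=
  sInf {x | ∃ β : ℝ, 0 ≤ β ∧ x = (β : EReal) ∧
    ∃ μ ν : Measure (Cfg d), IsGibbs d β μ ∧ IsGibbs d β ν ∧ μ ≠ ν}

/-- Translation of a field on `ℤ^d`. -/
def shift {A : Type*} (u : Site d) (y : Site d → A) : Site d → A := fun v => y (v + u)

/-- `φ(y)_0` is determined by the restriction of `y` to the ball of radius `r`:
`φ(y')_0 = φ(y)_0` for almost every `y'` that agrees with `y` on this ball. -/
def Determined {A : Type*} [MeasurableSpace A] (P : Measure (Site d → A))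
    (φ : (Site d → A) → Cfg d) (r : ℕ) (y : Site d → A) : Prop :=
  ∀ᵐ y' ∂P, (∀ u, l1 u ≤ r → y' u = y u) → φ y' 0 = φ y 0

/-- `μ` is fv-ffiid with exponential tails: there are a finite set `A`, a probability `p` on `A`
and a measurable map `φ` commuting with all translations such that the image under `φ` of the
i.i.d. field with marginal `p` is `μ` and the coding radius `R` (the least `r` such that `φ(y)_0`
is determined by the restriction of `y` to the ball of radius `r`) satisfies
`P(R > r) ≤ C exp (- c r)` for all `r`. -/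
def FvFfiidExp (d : ℕ) (μ : Measure (Cfg d)) : Prop :=
  ∃ (A : Type) (_ : Fintype A) (_ : MeasurableSpace A) (_ : MeasurableSingletonClass A)
    (p : Measure A) (_ : IsProbabilityMeasure p) (φ : (Site d → A) → Cfg d),
    Measurable φ ∧ (∀ u y, φ (shift u y) = shift u (φ y)) ∧
    (Measure.infinitePi fun _ : Site d => p).map φ = μ ∧
    ∃ C c : ℝ, 0 < c ∧ ∀ r : ℕ,
      (Measure.infinitePi fun _ : Site d => p)
        {y | ¬ Determined (Measure.infinitePi fun _ : Site d => p) φ r y} ≤
          ENNReal.ofReal (C * Real.exp (- c * r))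

end Pool.Agent.Helper70.Isg
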