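import Pool.Agent.Helper70.Isg.Goals2

/-!
# Final assembly for MP_600500_pr
-/

open MeasureTheory Filter Topology

noncomputable section

namespace Pool.Agent.Helper70.Isg

theorem prob_sym : IsProbabilityMeasure (((3 ^ 6 : ENNReal)⁻¹) • Measure.count :
    Measure (Fin 6 → Fin 3)) := by
  constructor
  rw [Measure.smul_apply, Measure.count_apply MeasurableSet.univ, Set.encard_univ,
    ENat.card_eq_coe_fintype_card]
  simp only [Fintype.card_pi, Fintype.card_fin, Finset.prod_const, Finset.card_univ, smul_eq_mul]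
  norm_num
  exact ENNReal.inv_mul_cancel (by norm_num) (by norm_num)

theorem exists_K {C c : ℝ} (hc : 0 < c) :
    ∃ K : ℕ, 0 < K ∧ ∀ i : ℕ, C * Real.exp (-c * ((K * (i + 1) : ℕ) : ℝ)) ≤ lam i := by
  set C' := max C 1 with hC'
  have hC1 : 1 ≤ C' := le_max_right _ _
  have hC0 : 0 < C' := by linarith
  have h1 : Tendsto (fun K : ℕ => Real.exp (-c * (K : ℝ))) atTop (𝓝 0) := by
    apply Real.tendsto_exp_atBot.comp
    apply Tendsto.const_mul_atTop_of_neg (by linarith) tendsto_natCast_atTop_atTop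
  have h2 : ∀ᶠ K : ℕ in atTop, Real.exp (-c * (K : ℝ)) < min (2 / 3) (1 / (3 * C')) := by
    apply (tendsto_order.1 h1).2
    positivity
  obtain ⟨K, hK, hK0⟩ := (h2.and (eventually_gt_atTop 0)).exists
  refine ⟨K, hK0, fun i => ?_⟩
  set e := Real.exp (-c * (K : ℝ)) with he
  have e0 : 0 < e := Real.exp_pos _
  have e1 : e ≤ 2 / 3 := (hK.trans_le (min_le_left _ _)).le
  have e2 : e ≤ 1 / (3 * C') := (hK.trans_le (min_le_right _ _)).le
  have h3 : Real.exp (-c * ((K * (i + 1) : ℕ) : ℝ)) = e * e ^ i := by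
    rw [← pow_succ', ← Real.exp_nat_mul]
    congr 1
    push_cast
    ring
  rw [h3]
  calc C * (e * e ^ i) ≤ C' * (e * e ^ i) :=
        mul_le_mul_of_nonneg_right (le_max_left _ _) (by positivity)
    _ = (C' * e) * e ^ i := by ring
    _ ≤ (1 / 3) * (2 / 3) ^ i := by
        apply mul_le_mul
        · calc C' * e ≤ C' * (1 / (3 * C')) := mul_le_mul_of_nonneg_left e2 hC0.le
            _ = 1 / 3 := by field_simp
        · exact pow_le_pow_left₀ e0.le e1 i
        · positivity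
        · norm_num
    _ = lam i := rfl

theorem card_ball_le (d R : ℕ) : ((ball (0 : Site d) R).card : ℝ) ≤ (2 * R + 1) ^ d := by
  have h : (ball (0 : Site d) R).card ≤ (2 * R + 1) ^ d := by
    unfold ball
    refine (Finset.card_filter_le _ _).trans ?_
    rw [Pi.card_Icc]
    simp only [Pi.zero_apply, zero_sub, zero_add, Int.card_Icc, Finset.prod_const,
      Finset.card_univ, Fintype.card_fin]
    apply Nat.pow_le_pow_left
    omega
  exact_mod_cast h

theorem poly_exp (d : ℕ) : ∃ C : ℝ, 0 ≤ C ∧ ∀ R : ℕ, (2 * (R : ℝ) + 1) ^ d * (7 / 10) ^ R ≤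
    C * (4 / 5) ^ R := by
  have h1 : Tendsto (fun R : ℕ => (R : ℝ) ^ d * (7 / 8) ^ R) atTop (𝓝 0) :=
    tendsto_pow_const_mul_const_pow_of_abs_lt_one d (by rw [abs_of_pos] <;> norm_num)
  obtain ⟨C, hC⟩ := h1.bddAbove_range
  refine ⟨max (3 ^ d * C) 1, by positivity, fun R => ?_⟩
  have hp : (0 : ℝ) < (4 / 5) ^ R := by positivity
  rcases Nat.eq_zero_or_pos R with h | h
  · subst h
    simp
  · have hR : (1 : ℝ) ≤ R := by exact_mod_cast h
    have h2 : (2 * (R : ℝ) + 1) ^ d ≤ (3 * R) ^ d :=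
      pow_le_pow_left₀ (by positivity) (by linarith) d
    have h3 : (R : ℝ) ^ d * (7 / 8) ^ R ≤ C := hC ⟨R, rfl⟩
    have h4 : (7 / 10 : ℝ) ^ R = (7 / 8) ^ R * (4 / 5) ^ R := by
      rw [← mul_pow]; norm_num
    calc (2 * (R : ℝ) + 1) ^ d * (7 / 10) ^ R ≤ (3 * R) ^ d * (7 / 10) ^ R :=
          mul_le_mul_of_nonneg_right h2 (by positivity)
      _ = 3 ^ d * ((R : ℝ) ^ d * (7 / 8) ^ R) * (4 / 5) ^ R := by rw [h4, mul_pow]; ring
      _ ≤ 3 ^ d * C * (4 / 5) ^ R := by
          apply mul_le_mul_of_nonneg_right _ hp.le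
          exact mul_le_mul_of_nonneg_left h3 (by positivity)
      _ ≤ max (3 ^ d * C) 1 * (4 / 5) ^ R :=
          mul_le_mul_of_nonneg_right (le_max_left _ _) hp.le

/-- `P(R > r)` bound from the two tails -/
theorem two_tails {C2 c2 : ℝ} (hc2 : 0 < c2) (d : ℕ) :
    ∃ C c : ℝ, 0 < c ∧ ∀ r : ℕ,
      ENNReal.ofReal (C2 * Real.exp (-c2 * ((r / 2 : ℕ) : ℝ))) +
        ((ball (0 : Site d) (r / 2)).card : ENNReal) * ENNReal.ofReal ((7 / 10) ^ (r / 2)) ≤
      ENNReal.ofReal (C * Real.exp (-c * r)) := by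
  obtain ⟨C3, hC3, h3⟩ := poly_exp d
  set C2' := max C2 0 with hC2'
  have hl : 0 < Real.log (5 / 4) := Real.log_pos (by norm_num)
  set c := min c2 (Real.log (5 / 4)) / 2 with hc
  have hcm : 0 < min c2 (Real.log (5 / 4)) := lt_min hc2 hl
  have hc0 : 0 < c := by positivity
  refine ⟨(C2' + C3) * Real.exp c, c, hc0, fun r => ?_⟩
  have hr : (r : ℝ) - 1 ≤ 2 * ((r / 2 : ℕ) : ℝ) := by
    have : r ≤ 2 * (r / 2) + 1 := by omega
    have h' : (r : ℝ) ≤ 2 * ((r / 2 : ℕ) : ℝ) + 1 := by exact_mod_cast this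
    linarith
  have hR0 : (0 : ℝ) ≤ ((r / 2 : ℕ) : ℝ) := Nat.cast_nonneg _
  have key : ∀ c' : ℝ, min c2 (Real.log (5 / 4)) ≤ c' →
      Real.exp (-c' * ((r / 2 : ℕ) : ℝ)) ≤ Real.exp c * Real.exp (-c * r) := by
    intro c' hc'
    rw [← Real.exp_add]
    apply Real.exp_le_exp.2
    have h1 : 2 * c ≤ c' := by rw [hc]; linarith
    nlinarith
  have h45 : ((4 : ℝ) / 5) ^ (r / 2) = Real.exp (-Real.log (5 / 4) * ((r / 2 : ℕ) : ℝ)) := by
    rw [← Real.log_inv, mul_comm, Real.exp_nat_mul, Real.exp_log (by norm_num)]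
    norm_num
  have e1 : ENNReal.ofReal (C2 * Real.exp (-c2 * ((r / 2 : ℕ) : ℝ))) ≤
      ENNReal.ofReal (C2' * (Real.exp c * Real.exp (-c * r))) := by
    apply ENNReal.ofReal_le_ofReal
    calc C2 * Real.exp (-c2 * ((r / 2 : ℕ) : ℝ))
        ≤ C2' * Real.exp (-c2 * ((r / 2 : ℕ) : ℝ)) :=
          mul_le_mul_of_nonneg_right (le_max_left _ _) (Real.exp_pos _).le
      _ ≤ _ := mul_le_mul_of_nonneg_left (key c2 (min_le_left _ _)) (le_max_right _ _)
  have e2 : ((ball (0 : Site d) (r / 2)).card : ENNReal) * ENNReal.ofReal ((7 / 10) ^ (r / 2)) ≤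
      ENNReal.ofReal (C3 * (Real.exp c * Real.exp (-c * r))) := by
    rw [← ENNReal.ofReal_natCast, ← ENNReal.ofReal_mul (Nat.cast_nonneg _)]
    apply ENNReal.ofReal_le_ofReal
    calc ((ball (0 : Site d) (r / 2)).card : ℝ) * (7 / 10) ^ (r / 2)
        ≤ (2 * ((r / 2 : ℕ) : ℝ) + 1) ^ d * (7 / 10) ^ (r / 2) :=
          mul_le_mul_of_nonneg_right (card_ball_le d (r / 2)) (by positivity)
      _ ≤ C3 * (4 / 5) ^ (r / 2) := h3 _
      _ ≤ _ := by
          rw [h45]
          exact mul_le_mul_of_nonneg_left (key _ (min_le_right _ _)) hC3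
  calc _ ≤ ENNReal.ofReal (C2' * (Real.exp c * Real.exp (-c * r))) +
        ENNReal.ofReal (C3 * (Real.exp c * Real.exp (-c * r))) := add_le_add e1 e2
    _ = _ := by
        rw [← ENNReal.ofReal_add]
        · congr 1; ring
        · have : 0 ≤ C2' := le_max_right _ _
          positivity
        · positivity

theorem final (hBASIC : S_BASIC) (hP2 : S_P2) (hSHARP : S_SHARP) (hTAIL : S_TAIL) (hLIM : S_LIM)
    (hGIBX : S_GIBX) (hLAWD : S_LAWD) (hRES : S_RES) (hPSI : S_PSI) (hMEAS : S_MEAS)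
    (hDET : S_DET) : S_FINAL := by
  intro d β hd hβ hβc
  obtain ⟨d, rfl⟩ : ∃ k, d = k + 1 := ⟨d - 1, by omega⟩
  have hU : ∀ b : ℝ, 0 ≤ b → (b : EReal) < betaC (d + 1) →
      ∀ μ ν : Measure (Cfg (d + 1)), IsGibbs (d + 1) b μ → IsGibbs (d + 1) b ν → μ = ν := by
    intro b hb hlt μ ν hμ hν
    by_contra hne
    have : betaC (d + 1) ≤ (b : EReal) := sInf_le ⟨b, hb, rfl, μ, ν, hμ, hν, hne⟩
    exact absurd hlt (not_lt.2 this)
  obtain ⟨β', h1, h2⟩ := EReal.lt_iff_exists_real_btwn.1 hβc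
  have h1' : β < β' := by exact_mod_cast h1
  obtain ⟨C, c, hc, hmag⟩ := hSHARP (d + 1) β β' hβ h1' (hU β' (hβ.trans h1'.le) h2)
  obtain ⟨K, hK, hKl⟩ := exists_K (C := C) hc
  obtain ⟨L, hL, C2, c2, hc2, htail⟩ := hTAIL (d + 1) K hK
  obtain ⟨hu, -, -, -, hPP, -⟩ := hP2 (d + 1) L hL
  have hmeas := (hMEAS (d + 1) β K L).1
  have hequi := (hMEAS (d + 1) β K L).2
  have hlim := hLIM (d + 1) β K L C2 c2 hβ hL hK hc2 (fun i => (hmag _).trans (hKl i)) htail
  set μ : Measure (Cfg (d + 1)) := (P2 (d + 1) L).map (phi2 β K) with hμ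
  have hμp : IsProbabilityMeasure μ := Measure.isProbabilityMeasure_map hmeas.aemeasurable
  have hG : IsGibbs (d + 1) β μ := hGIBX (d + 1) β μ atTop hμp inferInstance le_rfl hlim
  refine ⟨μ, hG, fun ν hν => hU β hβ hβc ν μ hν hG, ?_⟩
  have hps : IsProbabilityMeasure (pL L) := by
    have := prob_sym
    unfold pL
    infer_instance
  obtain ⟨hPm, hPl⟩ := hLAWD d L hL
  obtain ⟨hPe, hPd⟩ := hPSI d L
  refine ⟨Lett L, inferInstance, inferInstance, inferInstance, pL L, hps,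
    fun y => phi2 β K (Psi y), hmeas.comp hPm, ?_, ?_, ?_⟩
  · intro u y
    show phi2 β K (Psi (shift u y)) = shift u (phi2 β K (Psi y))
    rw [hPe, hequi]
  · have : (fun y : Site (d + 1) → Lett L => phi2 β K (Psi y)) = phi2 β K ∘ Psi := rfl
    rw [this, ← Measure.map_map hmeas hPm, hPl]
  · obtain ⟨C4, c4, hc4, h4⟩ := two_tails (C2 := C2) hc2 (d + 1)
    refine ⟨C4, c4, hc4, fun r => ?_⟩
    refine le_trans ?_ (h4 r)
    set P := Measure.infinitePi fun _ : Site (d + 1) => pL L with hP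
    set R := r / 2 with hR
    obtain ⟨-, -, -, hball, htri, -, -, -⟩ := hBASIC (d + 1)
    have hsub : {y | ¬ Determined P (fun y => phi2 β K (Psi y)) r y} ⊆
        (Psi ⁻¹' {x | ¬ Good K x 0 R}) ∪
          ⋃ w ∈ ball (0 : Site (d + 1)) R, {y | (lf 6 (strm y w) (6 * R)).1 ≠ 0} := by
      intro y hy
      by_contra hcon
      simp only [Set.mem_union, Set.mem_preimage, Set.mem_ofPred_eq, Set.mem_iUnion, not_or,
        not_not, exists_prop, not_exists, not_and] at hcon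
      obtain ⟨hgood, hres⟩ := hcon
      apply hy
      refine Filter.Eventually.of_forall fun y' hy' => ?_
      refine hDET (d + 1) β K L (Psi y) (Psi y') 0 R hgood fun w hw => ?_
      refine hPd y y' w R (hres w ((hball 0 w R).2 hw)) fun u hu => ?_
      apply hy'
      have h5 := htri (u - w) w
      rw [sub_add_cancel] at h5
      have h6 : l1 w ≤ R := by simpa using hw
      omega
    calc P {y | ¬ Determined P (fun y => phi2 β K (Psi y)) r y}
        ≤ P ((Psi ⁻¹' {x | ¬ Good K x 0 R}) ∪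
          ⋃ w ∈ ball (0 : Site (d + 1)) R, {y | (lf 6 (strm y w) (6 * R)).1 ≠ 0}) :=
          measure_mono hsub
      _ ≤ P (Psi ⁻¹' {x | ¬ Good K x 0 R}) +
          P (⋃ w ∈ ball (0 : Site (d + 1)) R, {y | (lf 6 (strm y w) (6 * R)).1 ≠ 0}) :=
          measure_union_le _ _
      _ ≤ _ := by
          apply add_le_add
          · calc P (Psi ⁻¹' {x | ¬ Good K x 0 R}) ≤ (P.map Psi) {x | ¬ Good K x 0 R} :=
                  Measure.le_map_apply hPm.aemeasurable _
              _ = P2 (d + 1) L {x | ¬ Good K x 0 R} := by rw [hPl]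
              _ ≤ _ := htail 0 R
          · refine (measure_biUnion_finset_le _ _).trans ?_
            refine (Finset.sum_le_card_nsmul _ _ _ fun w _ => hRES d L hL w R).trans ?_
            rw [nsmul_eq_mul]

end Pool.Agent.Helper70.Isg
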