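import Pool.Agent.Helper70.Isg.Defs

/-!
# Goals for MP_600500_pr: statements of the packets
-/

open MeasureTheory Filter Topology

noncomputable section

namespace Pool.Agent.Helper70.Isg

/-! ## K: the key inequality (real analysis) -/

/-- Laurent polynomials with at most two sign changes `- + -`. -/
def S_POSY : Prop :=
  ∀ (q : ℤ → ℝ) (k₁ k₂ x y z : ℝ), k₁ < k₂ →
    (∀ k ∈ Finset.Icc (-2 : ℤ) 2, k₁ < k → (k : ℝ) < k₂ → 0 ≤ q k) →
    (∀ k ∈ Finset.Icc (-2 : ℤ) 2, ¬ (k₁ < k ∧ (k : ℝ) < k₂) → q k ≤ 0) →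
    0 < x → x < y → y < z →
    0 ≤ ∑ k ∈ Finset.Icc (-2 : ℤ) 2, q k * x ^ k →
    0 < ∑ k ∈ Finset.Icc (-2 : ℤ) 2, q k * z ^ k →
    0 < ∑ k ∈ Finset.Icc (-2 : ℤ) 2, q k * y ^ k

/-- The coefficients of the key Laurent polynomial. -/
def qc (A B C A' B' C' M : ℝ) (k : ℤ) : ℝ :=
  if k = 2 then -(1 / 2) * Real.exp (2 * (B + B')) * Real.sinh (2 * ((A - A') + (C - C')))
  else if k = 1 then Real.exp (2 * B') * Real.sinh (2 * (C' - (A - A'))) - M / 2 * Real.exp (2 * B)
  else if k = 0 then
    (Real.exp (-2 * (A - A')) * Real.sinh (2 * ((C + C') - (B - B')))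
      + Real.exp (2 * (A - A')) * Real.sinh (2 * ((C + C') + (B - B')))) / 2
      - M * Real.cosh (2 * C)
  else if k = -1 then
    Real.exp (-2 * B') * Real.sinh (2 * (C' + (A - A'))) - M / 2 * Real.exp (-2 * B)
  else if k = -2 then
    -(1 / 2) * Real.exp (-2 * (B + B')) * Real.sinh (2 * ((C - C') - (A - A')))
  else 0

/-- Sign pattern of the coefficients. -/
def S_SIGN : Prop :=
  ∀ A B C A' B' C' M : ℝ, 0 ≤ C → 0 ≤ C' → 0 ≤ M → M ≤ 2 * Real.sinh (2 * C') →
    A' + C' ≤ A + C → A' + B' ≤ A + B → B' + C' ≤ B + C →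
    ∃ k₁ k₂ : ℝ, k₁ < k₂ ∧
      (∀ k ∈ Finset.Icc (-2 : ℤ) 2, k₁ < k → (k : ℝ) < k₂ → 0 ≤ qc A B C A' B' C' M k) ∧
      (∀ k ∈ Finset.Icc (-2 : ℤ) 2, ¬ (k₁ < k ∧ (k : ℝ) < k₂) → qc A B C A' B' C' M k ≤ 0)

/-- The basic inequality between effective interactions. -/
def keyI (A B C A' B' C' T c : ℝ) : Prop :=
  Real.exp (4 * A') * (Real.cosh (2 * (B' + C')) + Real.cosh (2 * (c + T))) *
      Real.cosh (B - C) ^ 2 ≤
    Real.exp (4 * A) * (Real.cosh (2 * (B' - C')) + Real.cosh (2 * (c - T))) *
      Real.cosh (B + C) ^ 2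

/-- Key inequality, under a strictness assumption. -/
def S_KEY0 : Prop :=
  ∀ A B C A' B' C' T J : ℝ, 0 ≤ B → 0 ≤ C → |T| ≤ B' → |T| ≤ C' →
    A' + C' ≤ A + C → A' + B' ≤ A + B → B' + C' ≤ B + C →
    Real.exp (4 * A') * Real.exp (4 * |T|) * Real.cosh (B - C) ^ 2 <
      Real.exp (4 * A) * Real.cosh (B + C) ^ 2 →
    (∀ c, keyI A B C A' B' C' T c) → 0 ≤ J → ∀ c, keyI A (B + J) C A' (B' + J) C' T c

/-- Key inequality. -/
def S_KEY : Prop :=
  ∀ A B C A' B' C' T J : ℝ, 0 ≤ B → 0 ≤ C → |T| ≤ B' → |T| ≤ C' →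
    A' + C' ≤ A + C → A' + B' ≤ A + B → B' + C' ≤ B + C →
    (∀ c, keyI A B C A' B' C' T c) → 0 ≤ J → ∀ c, keyI A (B + J) C A' (B' + J) C' T c

/-- Sum over the third spin `r` with weight `exp (J s r + c r)`, where `s` is the first spin. -/
def tri (z : Bool → Bool → Bool → ℝ) (J c : ℝ) (s t : Bool) : ℝ :=
  ∑ r : Bool, Real.exp (J * (sg s * sg r) + c * sg r) * z s t r

/-- Key inequality for positive functions of three spins. -/
def S_KEYZ : Prop :=
  ∀ (z w : Bool → Bool → Bool → ℝ) (J : ℝ), 0 ≤ J →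
    (∀ s t r, 0 < z s t r) → (∀ s t r, 0 < w s t r) →
    (∀ s t r, w (!s) (!t) (!r) = w s t r) →
    -- positive association of pairs, the third spin being fixed
    (∀ t, z true t false * z false t true ≤ z true t true * z false t false) →
    (∀ s, z s true false * z s false true ≤ z s true true * z s false false) →
    (∀ t, w true t false * w false t true ≤ w true t true * w false t false) →
    (∀ s, w s true false * w s false true ≤ w s true true * w s false false) →
    -- merging the third spin with the first, the third with the second, the first two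
    z true true true * z false false false * w true false true ^ 2 ≤
      z true false true * z false true false * w true true true ^ 2 →
    z true true true * z false false false * w true false false ^ 2 ≤
      z true false false * z false true true * w true true true ^ 2 →
    z true true true * z false false false * w true true false ^ 2 ≤
      z true true false * z false false true * w true true true ^ 2 →
    -- the inequality for J = 0 and all fields c on the third spin
    (∀ c : ℝ, tri z 0 c true true * tri z 0 c false false * tri w 0 0 true false ^ 2 ≤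
      tri z 0 c true false * tri z 0 c false true * tri w 0 0 true true ^ 2) →
    tri z J 0 true true * tri z J 0 false false * tri w J 0 true false ^ 2 ≤
      tri z J 0 true false * tri z J 0 false true * tri w J 0 true true ^ 2

/-! ## D: the Ding-Song-Sun inequality on finite graphs -/

/-- Ising energy with edge set `E`, endpoints `a`, `b`, couplings `J`, fields `h`. -/
def iE {V ι : Type} [Fintype V] (E : Finset ι) (a b : ι → V) (J : ι → ℝ) (h : V → ℝ)
    (σ : V → Bool) : ℝ :=
  ∑ e ∈ E, J e * (sg (σ (a e)) * sg (σ (b e))) + ∑ v, h v * sg (σ v)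

/-- Partition function with two prescribed spins. -/
def iZ2 {V ι : Type} [Fintype V] [DecidableEq V] (E : Finset ι) (a b : ι → V) (J : ι → ℝ)
    (h : V → ℝ) (x y : V) (s t : Bool) : ℝ :=
  ∑ σ : V → Bool, if σ x = s ∧ σ y = t then Real.exp (iE E a b J h σ) else 0

/-- Partition function with three prescribed spins. -/
def iZ3 {V ι : Type} [Fintype V] [DecidableEq V] (E : Finset ι) (a b : ι → V) (J : ι → ℝ)
    (h : V → ℝ) (x y j : V) (s t r : Bool) : ℝ :=
  ∑ σ : V → Bool, if σ x = s ∧ σ y = t ∧ σ j = r then Real.exp (iE E a b J h σ) else 0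

/-- Positive association of two spins, a third one being fixed (FKG). -/
def S_FKG3 : Prop :=
  ∀ (V ι : Type) [Fintype V] [DecidableEq V] (E : Finset ι) (a b : ι → V) (J : ι → ℝ)
    (h : V → ℝ) (x y j : V) (r : Bool), (∀ e, 0 ≤ J e) → x ≠ y → x ≠ j → y ≠ j →
    iZ3 E a b J h x y j true false r * iZ3 E a b J h x y j false true r ≤
      iZ3 E a b J h x y j true true r * iZ3 E a b J h x y j false false r

/-- The statement of the Ding-Song-Sun inequality for one edge set. -/
def dssI {V ι : Type} [Fintype V] [DecidableEq V] (E : Finset ι) (a b : ι → V) (J : ι → ℝ)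
    (h : V → ℝ) (x y : V) : Prop :=
  iZ2 E a b J h x y true true * iZ2 E a b J h x y false false *
      iZ2 E a b J 0 x y true false ^ 2 ≤
    iZ2 E a b J h x y true false * iZ2 E a b J h x y false true *
      iZ2 E a b J 0 x y true true ^ 2

/-- Merging `j` into `x` : the partition functions of the merged graph. -/
def S_MERGE : Prop :=
  ∀ (V ι : Type) [Fintype V] [DecidableEq V] (E : Finset ι) (a b : ι → V) (J : ι → ℝ)
    (h : V → ℝ) (x y j : V), x ≠ y → x ≠ j → y ≠ j → ∀ s t : Bool,
    iZ2 E (fun e => if a e = j then x else a e) (fun e => if b e = j then x else b e) J h x y s t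
      = iZ3 E a b J h x y j s t s * (1 + Real.exp (-2 * h j * sg s))

/-- One step of the induction: from `E.erase e` to `E` when `e` joins `x` to a third vertex. -/
def S_STEP : Prop :=
  ∀ (V ι : Type) [Fintype V] [DecidableEq V] [DecidableEq ι] (E : Finset ι) (a b : ι → V)
    (J : ι → ℝ) (h : V → ℝ) (x y j : V) (e : ι), (∀ e, 0 ≤ J e) → x ≠ y → x ≠ j → y ≠ j →
    e ∈ E → ((a e = x ∧ b e = j) ∨ (a e = j ∧ b e = x)) →
    (∀ (a' b' : ι → V) (h' : V → ℝ) (x' y' : V), x' ≠ y' → dssI (E.erase e) a' b' J h' x' y') →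
    dssI E a b J h x y

/-- The Ding-Song-Sun inequality. -/
def S_DSS : Prop :=
  ∀ (V ι : Type) [Fintype V] [DecidableEq V] [DecidableEq ι] (E : Finset ι) (a b : ι → V)
    (J : ι → ℝ) (h : V → ℝ) (x y : V), (∀ e, 0 ≤ J e) → x ≠ y → dssI E a b J h x y

/-- Ising energy in matrix form. -/
def gE {V : Type} [Fintype V] (J : V → V → ℝ) (h : V → ℝ) (σ : V → Bool) : ℝ :=
  (∑ u, ∑ v, J u v * (sg (σ u) * sg (σ v))) + ∑ u, h u * sg (σ u)

/-- Ising expectation in matrix form. -/
def gav {V : Type} [Fintype V] [DecidableEq V] (J : V → V → ℝ) (h : V → ℝ)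
    (f : (V → Bool) → ℝ) : ℝ :=
  (∑ σ : V → Bool, f σ * Real.exp (gE J h σ)) / ∑ σ : V → Bool, Real.exp (gE J h σ)

/-- Influence of the boundary fields is maximal at zero external field. -/
def S_E1 : Prop :=
  ∀ (V : Type) [Fintype V] [DecidableEq V] (J : V → V → ℝ) (h K : V → ℝ) (y : V),
    (∀ u v, 0 ≤ J u v) → (∀ u, 0 ≤ K u) →
    gav J (h + K) (fun σ => sg (σ y)) - gav J (h - K) (fun σ => sg (σ y)) ≤
      2 * gav J K (fun σ => sg (σ y))

/-- The case of a field on one vertex. -/
def S_LEAF : Prop :=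
  ∀ (V : Type) [Fintype V] [DecidableEq V] (J : V → V → ℝ) (h : V → ℝ) (K : ℝ) (u y : V),
    (∀ u v, 0 ≤ J u v) → 0 ≤ K →
    gav J (h + Pi.single u K) (fun σ => sg (σ y)) -
      gav J (h - Pi.single u K) (fun σ => sg (σ y)) ≤
      2 * (Real.tanh K * gav J 0 (fun σ => sg (σ u) * sg (σ y)))

/-- Griffiths monotonicity in the couplings. -/
def S_MONJ : Prop :=
  ∀ (V : Type) [Fintype V] [DecidableEq V] (J J' : V → V → ℝ) (u v : V),
    (∀ a b, 0 ≤ J a b) → (∀ a b, J a b ≤ J' a b) →
    gav J 0 (fun σ => sg (σ u) * sg (σ v)) ≤ gav J' 0 (fun σ => sg (σ u) * sg (σ v))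

/-- FKG inequality for expectations: an increasing field increases increasing functions. -/
def S_FKGH : Prop :=
  ∀ (V : Type) [Fintype V] [DecidableEq V] (J : V → V → ℝ) (h h' : V → ℝ) (f : (V → Bool) → ℝ),
    (∀ a b, 0 ≤ J a b) → (∀ a, h a ≤ h' a) → Monotone f → gav J h f ≤ gav J h' f

/-! ## FK: random cluster decomposition -/

/-- couplings restricted to a set of vertices -/
def resJ {V : Type} [DecidableEq V] (J : V → V → ℝ) (S : Finset V) : V → V → ℝ :=
  fun u v => if u ∈ S ∧ v ∈ S then J u v else 0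

/-- extension of a field by `0` at the ghost vertex `none` -/
def ext0 {V : Type} (x : V → ZMod 2) : Option V → ZMod 2 := fun o => o.elim 0 x

/-- The vectors `x : V → ZMod 2` that are constant along all open edges (and vanish at the
ghost). -/
def cs {V ι : Type} (a b : ι → Option V) (ω : Finset ι) : Submodule (ZMod 2) (V → ZMod 2) where
  carrier := {x | ∀ e ∈ ω, ext0 x (a e) = ext0 x (b e)}
  add_mem' := by
    intro x y hx hy e he
    have h1 := hx e he
    have h2 := hy e he
    have key : ∀ o : Option V, ext0 (x + y) o = ext0 x o + ext0 y o := by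
      intro o; cases o <;> simp [ext0]
    rw [key, key, h1, h2]
  zero_mem' := by
    intro e _
    have key : ∀ o : Option V, ext0 (0 : V → ZMod 2) o = 0 := by
      intro o; cases o <;> simp [ext0]
    rw [key, key]
  smul_mem' := by
    intro c x hx e he
    have h1 := hx e he
    have key : ∀ o : Option V, ext0 (c • x) o = c * ext0 x o := by
      intro o; cases o <;> simp [ext0]
    rw [key, key, h1]

/-- random cluster weight -/
def fw {V ι : Type} (a b : ι → Option V) (r : ι → ℝ) (ω : Finset ι) : ℝ :=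
  (∏ e ∈ ω, r e) * (Nat.card (cs a b ω) : ℝ)

/-- the spin attached to a possibly ghost vertex -/
def osg {V : Type} (σ : V → Bool) (o : Option V) : ℝ := o.elim 1 fun v => sg (σ v)

/-- Edwards-Sokal: correlation functions are random cluster probabilities. -/
def S_FKCOR : Prop :=
  ∀ (V ι : Type) [Fintype V] [DecidableEq V] [Fintype ι] [DecidableEq ι] (a b : ι → Option V)
    (J : ι → ℝ) (A : Finset V),
    (∑ σ : V → Bool, (∏ v ∈ A, sg (σ v)) *
        Real.exp (∑ e, J e * (osg σ (a e) * osg σ (b e)))) =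
      (∏ e, Real.exp (-J e)) * ∑ ω : Finset ι,
        (open Classical in if ∀ x ∈ cs a b ω, ∑ v ∈ A, x v = 0 then
          fw a b (fun e => Real.exp (2 * J e) - 1) ω else 0)

/-- FKG inequality for the random cluster model. -/
def S_FKFKG : Prop :=
  ∀ (V ι : Type) [Fintype V] [DecidableEq V] [Fintype ι] [DecidableEq ι] (a b : ι → Option V)
    (r : ι → ℝ) (f g : Finset ι → ℝ), (∀ e, 0 ≤ r e) → (∀ ω, 0 ≤ f ω) → (∀ ω, 0 ≤ g ω) →
    Monotone f → Monotone g →
    (∑ ω, fw a b r ω * f ω) * (∑ ω, fw a b r ω * g ω) ≤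
      (∑ ω, fw a b r ω) * ∑ ω, fw a b r ω * (f ω * g ω)

/-- the set of vertices that are not connected to the ghost -/
def unc {V ι : Type} [Fintype V] (a b : ι → Option V) (ω : Finset ι) : Finset V :=
  open Classical in Finset.univ.filter fun v => ∃ x ∈ cs a b ω, x v ≠ 0

/-- the edges with both endpoints in the vertex set `S` -/
def inn {V ι : Type} [DecidableEq V] [Fintype ι] (a b : ι → Option V) (S : Finset V) : Finset ι :=
  Finset.univ.filter fun e => (∃ u ∈ S, a e = some u) ∧ ∃ v ∈ S, b e = some v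

/-- Domain Markov property: given that the set of vertices not connected to the ghost is `S`, the
configuration inside `S` is a free random cluster configuration. -/
def S_FKDM : Prop :=
  ∀ (V ι : Type) [Fintype V] [DecidableEq V] [Fintype ι] [DecidableEq ι] (a b : ι → Option V)
    (r : ι → ℝ) (S : Finset V) (o u : V), o ∈ S → u ∈ S →
    (∑ ω : Finset ι, (open Classical in
        if unc a b ω = S ∧ ∀ x ∈ cs a b ω, x o = x u then fw a b r ω else 0)) *
      (∑ ω ∈ (inn a b S).powerset, fw a b r ω) =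
    (∑ ω : Finset ι, if unc a b ω = S then fw a b r ω else 0) *
      ∑ ω ∈ (inn a b S).powerset, (open Classical in
        if ∀ x ∈ cs a b ω, x o = x u then fw a b r ω else 0)

/-- Decomposition along the cluster of the ghost vertex (matrix form, fields `K`). -/
def S_FKDEC : Prop :=
  ∀ (V : Type) [Fintype V] [DecidableEq V] (J : V → V → ℝ) (K : V → ℝ) (o : V),
    (∀ u v, 0 ≤ J u v) → (∀ u, 0 ≤ K u) →
    ∃ π : Finset V → ℝ, (∀ S, 0 ≤ π S) ∧ ∑ S, π S = 1 ∧
      ∑ S, (if o ∈ S then 0 else π S) = gav J K (fun σ => sg (σ o)) ∧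
      (∀ u v : V, ∑ S, (if o ∈ S then π S *
          ((if u ∈ S ∧ v ∉ S then gav (resJ J S) 0 (fun σ => sg (σ o) * sg (σ u)) else 0) +
           (if v ∈ S ∧ u ∉ S then gav (resJ J S) 0 (fun σ => sg (σ o) * sg (σ v)) else 0))
          else 0) ≤
        gav J K (fun σ => sg (σ o) * (sg (σ u) * sg (σ v))) -
          gav J K (fun σ => sg (σ o)) * gav J K (fun σ => sg (σ u) * sg (σ v))) ∧
      (∀ u : V, ∑ S, (if o ∈ S then π S *
          (if u ∈ S then gav (resJ J S) 0 (fun σ => sg (σ o) * sg (σ u)) else 0)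
          else 0) ≤
        gav J K (fun σ => sg (σ o) * sg (σ u)) -
          gav J K (fun σ => sg (σ o)) * gav J K (fun σ => sg (σ u)))

end Pool.Agent.Helper70.Isg
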