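import Pool.Agent.Helper70.Isg.Goals

/-!
# Goals for MP_600500_pr, second part: the lattice
-/

open MeasureTheory Filter Topology

noncomputable section

namespace Pool.Agent.Helper70.Isg

variable {d : ℕ}

/-! ## L: finite volume tools on the lattice -/

/-- all spins plus -/
def allT : Cfg d := fun _ => true

/-- the value of a spin as a `0`-`1` function -/
def ind (v : Site d) : Cfg d → ℝ := fun σ => if σ v then 1 else 0

/-- the magnetization at `v` in `Λ` with plus boundary condition -/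
def mag (β : ℝ) (Λ : Finset (Site d)) (v : Site d) : ℝ := ev β Λ allT (fun σ => sg (σ v))

/-- the couplings of the lattice in a finite volume, in matrix form -/
def latJ (β : ℝ) (Λ : Finset (Site d)) : Λ → Λ → ℝ :=
  fun u v => if (v : Site d) ∈ nbrs (u : Site d) then β / 2 else 0

/-- the field produced by the boundary condition -/
def latH (β : ℝ) (Λ : Finset (Site d)) (η : Cfg d) : Λ → ℝ :=
  fun u => β * ∑ v ∈ (nbrs (u : Site d)).filter (· ∉ Λ), sg (η v)

/-- closed ball for the `ℓ¹` norm -/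
def ball (v : Site d) (n : ℕ) : Finset (Site d) :=
  (Finset.Icc (fun i => v i - n) (fun i => v i + n)).filter (fun u => l1 (u - v) ≤ n)

/-- API of the basic objects. -/
def S_BASIC : Prop :=
  ∀ d : ℕ,
    (∀ u v : Site d, v ∈ nbrs u ↔ l1 (v - u) = 1) ∧
    (∀ u v : Site d, v ∈ nbrs u ↔ u ∈ nbrs v) ∧
    (∀ u : Site d, u ∉ nbrs u) ∧
    (∀ (v u : Site d) (n : ℕ), u ∈ ball v n ↔ l1 (u - v) ≤ n) ∧
    (∀ u v : Site d, l1 (u + v) ≤ l1 u + l1 v) ∧
    (∀ u : Site d, l1 (-u) = l1 u) ∧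
    (∀ u : Site d, l1 u = 0 ↔ u = 0) ∧
    (∀ (β : ℝ) (Λ : Finset (Site d)) (η : Cfg d), 0 < pf β Λ η) ∧
    (∀ (β : ℝ) (Λ : Finset (Site d)) (η : Cfg d) (c : ℝ), ev β Λ η (fun _ => c) = c) ∧
    (∀ (β : ℝ) (Λ : Finset (Site d)) (η : Cfg d) (f g : Cfg d → ℝ),
      ev β Λ η (fun σ => f σ + g σ) = ev β Λ η f + ev β Λ η g) ∧
    (∀ (β : ℝ) (Λ : Finset (Site d)) (η : Cfg d) (c : ℝ) (f : Cfg d → ℝ),
      ev β Λ η (fun σ => c * f σ) = c * ev β Λ η f) ∧
    (∀ (β : ℝ) (Λ : Finset (Site d)) (η : Cfg d) (f g : Cfg d → ℝ), (∀ σ, f σ ≤ g σ) →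
      ev β Λ η f ≤ ev β Λ η g) ∧
    (∀ (β : ℝ) (Λ : Finset (Site d)) (η : Cfg d) (f g : Cfg d → ℝ),
      (∀ σ : Cfg d, (∀ v ∉ Λ, σ v = η v) → f σ = g σ) → ev β Λ η f = ev β Λ η g)

/-- matrix form of finite volume expectations -/
def S_EVG : Prop :=
  ∀ (d : ℕ) (β : ℝ) (Λ : Finset (Site d)) (η : Cfg d) (f : Cfg d → ℝ),
    ev β Λ η f = gav (latJ β Λ) (latH β Λ η) (fun τ => f (glue Λ τ η))

/-- consistency of the specification -/
def S_CONS : Prop :=
  ∀ (d : ℕ) (β : ℝ) (Δ Λ : Finset (Site d)) (η : Cfg d) (f : Cfg d → ℝ), Δ ⊆ Λ →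
    ev β Λ η f = ev β Λ η (fun σ => ev β Δ σ f)

/-- monotonicity in the boundary condition -/
def S_MONB : Prop :=
  ∀ (d : ℕ) (β : ℝ) (Λ : Finset (Site d)) (η η' : Cfg d) (f : Cfg d → ℝ), 0 ≤ β →
    (∀ v ∉ Λ, η v ≤ η' v) → Monotone f → ev β Λ η f ≤ ev β Λ η' f

/-- the plus states decrease when the volume increases -/
def S_MOND : Prop :=
  ∀ (d : ℕ) (β : ℝ) (Δ Λ : Finset (Site d)) (f : Cfg d → ℝ), 0 ≤ β → Δ ⊆ Λ → Monotone f →
    ev β Λ allT f ≤ ev β Δ allT f

/-- translation invariance -/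
def S_TRAN : Prop :=
  ∀ (d : ℕ) (β : ℝ) (Λ : Finset (Site d)) (η : Cfg d) (f : Cfg d → ℝ) (u : Site d),
    ev β (Λ.image (· + u)) η f = ev β Λ (shift u η) (fun σ => f (shift (-u) σ))

/-- the spin flip -/
def S_FLIP : Prop :=
  ∀ (d : ℕ) (β : ℝ) (Λ : Finset (Site d)) (η : Cfg d) (f : Cfg d → ℝ),
    ev β Λ (fun v => !(η v)) f = ev β Λ η (fun σ => f (fun v => !(σ v)))

/-- dependence on the boundary condition is local -/
def S_LOCB : Prop :=
  ∀ (d : ℕ) (β : ℝ) (Λ F : Finset (Site d)) (η η' : Cfg d) (f : Cfg d → ℝ),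
    (∀ u ∈ Λ, ∀ v ∈ nbrs u, v ∉ Λ → η v = η' v) → (∀ v ∈ F, v ∉ Λ → η v = η' v) →
    (∀ σ σ' : Cfg d, (∀ v ∈ F, σ v = σ' v) → f σ = f σ') →
    ev β Λ η f = ev β Λ η' f

/-! ## S: sharpness of the phase transition -/

/-- free two-point function in the finite set `S` -/
def frc (β : ℝ) (S : Finset (Site d)) (u v : Site d) : ℝ :=
  (∑ τ : S → Bool, sg (glue S τ allT u) * sg (glue S τ allT v) *
      Real.exp (β * ∑ a ∈ S, ∑ b ∈ (nbrs a).filter (· ∈ S),
        1 / 2 * (sg (glue S τ allT a) * sg (glue S τ allT b)))) /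
    ∑ τ : S → Bool, Real.exp (β * ∑ a ∈ S, ∑ b ∈ (nbrs a).filter (· ∈ S),
        1 / 2 * (sg (glue S τ allT a) * sg (glue S τ allT b)))

/-- the Duminil-Copin-Tassion quantity (without the factor `tanh β`) -/
def psi (β : ℝ) (S : Finset (Site d)) (o : Site d) : ℝ :=
  ∑ u ∈ S, ∑ _v ∈ (nbrs u).filter (· ∉ S), frc β S o u

/-- Simon-Lieb type inequality for the plus magnetization -/
def S_LIEB : Prop :=
  ∀ (d : ℕ) (β : ℝ) (S Λ : Finset (Site d)) (o : Site d), 0 ≤ β → o ∈ S → S ⊆ Λ →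
    mag β Λ o ≤ Real.tanh β *
      ∑ u ∈ S, ∑ v ∈ (nbrs u).filter (· ∉ S), frc β S o u * mag β Λ v

/-- differential inequality for the plus magnetization -/
def S_DIFF : Prop :=
  ∀ (d : ℕ) (β θ : ℝ) (Λ : Finset (Site d)) (o : Site d), 0 ≤ β → o ∈ Λ →
    (∀ S ⊆ Λ, o ∈ S → θ ≤ psi β S o) →
    ∃ D : ℝ, HasDerivAt (fun b => mag b Λ o) D β ∧ θ * (1 - mag β Λ o) ≤ D

/-- monotonicity of `psi` and positivity of the free two-point function -/
def S_MONPSI : Prop :=
  ∀ (d : ℕ) (β β' : ℝ) (S : Finset (Site d)) (o : Site d), 0 ≤ β → β ≤ β' → o ∈ S →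
    psi β S o ≤ psi β' S o ∧ ∀ u ∈ S, 0 ≤ frc β S o u

/-- limits of finite volume plus states are Gibbs measures -/
def S_GIBX : Prop :=
  ∀ (d : ℕ) (β : ℝ) (ν : Measure (Cfg d)) (l : Filter ℕ), IsProbabilityMeasure ν →
    l.NeBot → l ≤ atTop →
    (∀ (F : Finset (Site d)) (a : Cfg d),
      Tendsto (fun n : ℕ => ev β (ball 0 n) allT
        ({σ : Cfg d | ∀ v ∈ F, σ v = a v}.indicator 1)) l
        (𝓝 (ν.real {σ : Cfg d | ∀ v ∈ F, σ v = a v}))) →
    IsGibbs d β ν

/-- positive magnetization implies non-uniqueness -/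
def S_NONU : Prop :=
  ∀ (d : ℕ) (β c : ℝ), 0 ≤ β → 0 < c → (∀ n : ℕ, c ≤ mag β (ball (0 : Site d) n) 0) →
    ∃ μ ν : Measure (Cfg d), IsGibbs d β μ ∧ IsGibbs d β ν ∧ μ ≠ ν

/-- exponential decay of the plus magnetization below a parameter of uniqueness -/
def S_SHARP : Prop :=
  ∀ (d : ℕ) (β β' : ℝ), 0 ≤ β → β < β' →
    (∀ μ ν : Measure (Cfg d), IsGibbs d β' μ → IsGibbs d β' ν → μ = ν) →
    ∃ C c : ℝ, 0 < c ∧ ∀ n : ℕ, mag β (ball (0 : Site d) n) 0 ≤ C * Real.exp (-c * n)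

/-! ## C: strong spatial mixing and the coding by labels and geometric variables -/

/-- strong spatial mixing: pinned spins do not increase the influence of the boundary -/
def S_SSM : Prop :=
  ∀ (d : ℕ) (β : ℝ) (Λ Q : Finset (Site d)) (a : Cfg d) (v : Site d), 0 ≤ β → v ∈ Λ → v ∉ Q →
    ev β (Λ \ Q) (fun u => if u ∈ Λ then a u else true) (fun σ => sg (σ v)) -
      ev β (Λ \ Q) (fun u => if u ∈ Λ then a u else false) (fun σ => sg (σ v)) ≤
      2 * mag β Λ v

/-- probability of a plus spin at `v` in the ball of radius `r` around `v` with boundary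
condition `s`, where the spins of the set `P` are pinned to the values `a` -/
def low (β : ℝ) (v : Site d) (r : ℕ) (P : Site d → Bool) (s : Bool) (a : Cfg d) : ℝ :=
  ev β ((ball v r).filter (fun u => P u = false)) (fun u => if u ∈ ball v r then a u else s)
    (ind v)

/-- the same in a general finite volume, with plus boundary condition -/
def exf (β : ℝ) (Λ : Finset (Site d)) (P : Site d → Bool) (v : Site d) (a : Cfg d) : ℝ :=
  ev β (Λ.filter (fun u => P u = false)) (fun u => if u ∈ Λ then a u else true) (ind v)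

/-- bounds between the ball and the full volume -/
def S_SAND : Prop :=
  ∀ (d : ℕ) (β : ℝ) (Λ : Finset (Site d)) (P : Site d → Bool) (v : Site d) (r : ℕ) (a : Cfg d),
    0 ≤ β → P v = false → ball v r ⊆ Λ →
    low β v r P false a ≤ exf β Λ P v a ∧
      exf β Λ P v a ≤ low β v r P false a + mag β (ball (0 : Site d) r) 0

/-- geometric weights -/
def lam (k : ℕ) : ℝ := (1 / 3) * (2 / 3) ^ k

/-- partial sums of the greedy expansion with lower bounds `L` -/
def gsum (L : ℕ → ℝ) : ℕ → ℝ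
  | 0 => 0
  | k + 1 => gsum L k + (if lam k ≤ L k - gsum L k then lam k else 0)

/-- digits of the greedy expansion -/
def gbit (L : ℕ → ℝ) (k : ℕ) : Bool := decide (lam k ≤ L k - gsum L k)

/-- the greedy expansion with approximate knowledge of the number -/
def S_GREEDY : Prop :=
  ∀ (L : ℕ → ℝ) (p : ℝ), (∀ k, L k ≤ p ∧ p ≤ L k + lam k) → 0 ≤ p → p ≤ 1 →
    HasSum (fun k => if gbit L k then lam k else 0) p

/-- the order: first the labels, then the lexicographic order -/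
def prb (l : Site d → ℕ) (w v : Site d) : Bool :=
  open Classical in decide (l w < l v ∨ (l w = l v ∧ toLex w < toLex v))

/-- the rule in infinite volume -/
def kbit (β : ℝ) (K : ℕ) (l : Site d → ℕ) (v : Site d) (k : ℕ) (a : Cfg d) : Bool :=
  gbit (fun i => low β v (K * (i + 1)) (fun w => prb l w v) false a) k

/-- the lower bounds used in finite volume -/
def lfin (β : ℝ) (K : ℕ) (Λ : Finset (Site d)) (l : Site d → ℕ) (v : Site d) (a : Cfg d)
    (i : ℕ) : ℝ :=
  if ball v (K * (i + 1)) ⊆ Λ then low β v (K * (i + 1)) (fun w => prb l w v) false a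
  else exf β Λ (fun w => prb l w v) v a

/-- the rule in finite volume -/
def fbit (β : ℝ) (K : ℕ) (Λ : Finset (Site d)) (l : Site d → ℕ) (v : Site d) (k : ℕ)
    (a : Cfg d) : Bool :=
  gbit (lfin β K Λ l v a) k

/-- the chain rule for the finite volume Gibbs distribution -/
def S_CHAIN : Prop :=
  ∀ (d : ℕ) (β : ℝ) (Λ : Finset (Site d)) (l : Site d → ℕ) (a : Cfg d), (∀ v ∉ Λ, a v = true) →
    ∏ v ∈ Λ, (if a v then exf β Λ (fun w => prb l w v) v a
        else 1 - exf β Λ (fun w => prb l w v) v a) =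
      wt β Λ a / pf β Λ allT

/-- inputs: labels and geometric variables -/
abbrev Inp (d L : ℕ) := Site d → Fin L × ℕ

/-- the labels -/
def lab {L : ℕ} (y : Inp d L) (v : Site d) : ℕ := ((y v).1 : ℕ)

/-- uniform distribution on the labels -/
def unifL (L : ℕ) : Measure (Fin L) := ((L : ENNReal)⁻¹) • Measure.count

/-- geometric distribution -/
def geo : Measure ℕ := Measure.sum fun k => ENNReal.ofReal (lam k) • Measure.dirac k

/-- the law of the inputs -/
def P2 (d L : ℕ) : Measure (Inp d L) := Measure.infinitePi fun _ : Site d => (unifL L).prod geo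

/-- `P2` is a probability, and its finite dimensional distributions -/
def S_P2 : Prop :=
  ∀ (d L : ℕ), 0 < L → IsProbabilityMeasure (unifL L) ∧ IsProbabilityMeasure geo ∧
    (∀ k, geo {k} = ENNReal.ofReal (lam k)) ∧
    (∀ n : ℕ, geo {k | n ≤ k} = ENNReal.ofReal ((2 / 3) ^ n)) ∧
    IsProbabilityMeasure (P2 d L) ∧
    (∀ (F : Finset (Site d)) (B : Site d → Set (Fin L × ℕ)),
      P2 d L {y | ∀ v ∈ F, y v ∈ B v} = ∏ v ∈ F, ((unifL L).prod geo) (B v))

/-- finite volume sampler: law of the solutions of the recursion -/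
def S_SAMP : Prop :=
  ∀ (d : ℕ) (β : ℝ) (K L : ℕ) (Λ : Finset (Site d)) (a : Cfg d), 0 < L →
    (∀ v ∉ Λ, a v = true) →
    (∀ (l : Site d → ℕ), ∀ v ∈ Λ, ∀ i, lfin β K Λ l v a i ≤ exf β Λ (fun w => prb l w v) v a ∧
      exf β Λ (fun w => prb l w v) v a ≤ lfin β K Λ l v a i + lam i) →
    P2 d L {y | ∀ v ∈ Λ, fbit β K Λ (lab y) v (y v).2 a = a v} =
      ENNReal.ofReal (wt β Λ a / pf β Λ allT)

/-- the recursion in finite volume has exactly one solution -/
def S_EXU : Prop :=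
  ∀ (d : ℕ) (β : ℝ) (K L : ℕ) (Λ : Finset (Site d)) (y : Inp d L),
    ∃! X : Cfg d, (∀ v ∉ Λ, X v = true) ∧ ∀ v ∈ Λ, X v = fbit β K Λ (lab y) v (y v).2 X

/-- iteration of the infinite volume rule -/
def itr (β : ℝ) (K : ℕ) {L : ℕ} (y : Inp d L) : ℕ → Cfg d
  | 0 => fun _ => false
  | n + 1 => fun v => kbit β K (lab y) v (y v).2 (itr β K y n)

/-- the infinite volume map -/
def phi2 (β : ℝ) (K : ℕ) {L : ℕ} (y : Inp d L) : Cfg d :=
  fun v => open Classical in decide (∃ N, ∀ n ≥ N, itr β K y n v = true)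

/-- dependency relation: the spin at `v` looks at the spin at `w` -/
def stp (K : ℕ) {L : ℕ} (y : Inp d L) (v w : Site d) : Prop :=
  w ∈ ball v (K * ((y v).2 + 1)) ∧ prb (lab y) w v = true

/-- everything needed to compute the spin at `v` is in the ball of radius `R` around `v` -/
def Good (K : ℕ) {L : ℕ} (y : Inp d L) (v : Site d) (R : ℕ) : Prop :=
  ∀ w, Relation.ReflTransGen (stp K y) v w → ∀ u ∈ ball w (K * ((y w).2 + 1)), l1 (u - v) ≤ R

/-- determination -/
def S_DET : Prop :=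
  ∀ (d : ℕ) (β : ℝ) (K L : ℕ) (y y' : Inp d L) (v : Site d) (R : ℕ), Good K y v R →
    (∀ u, l1 (u - v) ≤ R → y' u = y u) → phi2 β K y' v = phi2 β K y v

/-- on the good event the infinite volume map is given by the finite volume recursion -/
def S_COUP : Prop :=
  ∀ (d : ℕ) (β : ℝ) (K L : ℕ) (Λ : Finset (Site d)) (y : Inp d L) (v : Site d) (R : ℕ)
    (X : Cfg d), Good K y v R → ball v R ⊆ Λ →
    (∀ v ∈ Λ, X v = fbit β K Λ (lab y) v (y v).2 X) → X v = phi2 β K y v

/-- measurability and equivariance -/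
def S_MEAS : Prop :=
  ∀ (d : ℕ) (β : ℝ) (K L : ℕ), Measurable (phi2 β K : Inp d L → Cfg d) ∧
    ∀ (u : Site d) (y : Inp d L), phi2 β K (shift u y) = shift u (phi2 β K y)

/-- probability of one dependency path -/
def S_PATH : Prop :=
  ∀ (d K L : ℕ), 0 < K → 0 < L → ∀ (w : ℕ → Site d) (n m : ℕ),
    (∀ i j, i ≤ n → j ≤ n → w i = w j → i = j) →
    P2 d L {y | (∀ i < n, w (i + 1) ∈ ball (w i) (K * ((y (w i)).2 + 1)) ∧
        lab y (w (i + 1)) ≤ lab y (w i)) ∧ m < K * ((y (w n)).2 + 1)} ≤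
      ENNReal.ofReal (2 ^ L * (2 / L) ^ n *
        (∏ i ∈ Finset.range n, (3 / 2) * ((2 / 3 : ℝ) ^ (1 / (K : ℝ))) ^ l1 (w (i + 1) - w i)) *
        ((3 / 2) * ((2 / 3 : ℝ) ^ (1 / (K : ℝ))) ^ m))

/-- exponential tail of the dependency radius -/
def S_TAIL : Prop :=
  ∀ (d K : ℕ), 0 < K → ∃ L : ℕ, 0 < L ∧ ∃ C c : ℝ, 0 < c ∧ ∀ (v : Site d) (R : ℕ),
    P2 d L {y | ¬ Good K y v R} ≤ ENNReal.ofReal (C * Real.exp (-c * R))

/-- the image of the inputs is the limit of the plus states -/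
def S_LIM : Prop :=
  ∀ (d : ℕ) (β : ℝ) (K L : ℕ) (C c : ℝ), 0 ≤ β → 0 < L → 0 < K → 0 < c →
    (∀ i : ℕ, mag β (ball (0 : Site d) (K * (i + 1))) 0 ≤ lam i) →
    (∀ (v : Site d) (R : ℕ), P2 d L {y | ¬ Good K y v R} ≤
      ENNReal.ofReal (C * Real.exp (-c * R))) →
    ∀ (F : Finset (Site d)) (a : Cfg d),
      Tendsto (fun n : ℕ => ev β (ball 0 n) allT
        ({σ : Cfg d | ∀ v ∈ F, σ v = a v}.indicator 1)) atTop
        (𝓝 (((P2 d L).map (phi2 β K)).real {σ : Cfg d | ∀ v ∈ F, σ v = a v}))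

/-! ## G: geometric variables from finitely many letters -/

/-- the state (number of unsatisfied customers, number of failures of the first customer) of the
last-in first-out queue before the letter number `n` of the stream `c` is read; a new customer
arrives every `M` letters; the letter `0` is a success and satisfies the last customer -/
def lf (M : ℕ) (c : ℕ → Fin 3) : ℕ → ℕ × ℕ
  | 0 => (1, 0)
  | n + 1 =>
    let h' := if n % M = 0 ∧ 0 < n ∧ 0 < (lf M c n).1 then (lf M c n).1 + 1 else (lf M c n).1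
    if h' = 0 then (0, (lf M c n).2)
    else if c n = 0 then (h' - 1, (lf M c n).2)
    else (h', if h' = 1 then (lf M c n).2 + 1 else (lf M c n).2)

/-- number of failures of the first customer -/
def Tc (M : ℕ) (c : ℕ → Fin 3) : ℕ :=
  open Classical in if h : ∃ n, (lf M c n).1 = 0 then (lf M c (Nat.find h)).2 else 0

/-- the letters: a label and six symbols -/
abbrev Lett (L : ℕ) := Fin L × (Fin 6 → Fin 3)

/-- the stream of symbols read by the customer at `v` (in direction `e₀`) -/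
def strm {L : ℕ} (y : Site (d + 1) → Lett L) (v : Site (d + 1)) (n : ℕ) : Fin 3 :=
  (y (v + Pi.single 0 ((n / 6 : ℕ) : ℤ))).2 ⟨n % 6, Nat.mod_lt _ (by norm_num)⟩

/-- the map from letters to labels and geometric variables -/
def Psi {L : ℕ} (y : Site (d + 1) → Lett L) : Inp (d + 1) L :=
  fun v => ((y v).1, Tc 6 (strm y v))

/-- uniform distribution on the letters -/
def pL (L : ℕ) : Measure (Lett L) := (unifL L).prod (((3 ^ 6 : ENNReal)⁻¹) • Measure.count)

/-- predictable injective labels: reading a random word from a field of i.i.d. symbols -/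
def S_WORD : Prop :=
  ∀ (I : Type) [Fintype I] [DecidableEq I] (N : ℕ) (lb : Fin N → (Fin N → Fin 3) → I)
    (G : Finset (Fin N → Fin 3)),
    (∀ (n : Fin N) (x x' : Fin N → Fin 3), (∀ m < n, x m = x' m) → lb n x = lb n x') →
    (∀ x : Fin N → Fin 3, Function.Injective fun n => lb n x) →
    (Finset.univ.filter fun D : I → Fin 3 => ∃ x ∈ G, ∀ n, D (lb n x) = x n).card * 3 ^ N =
      G.card * 3 ^ Fintype.card I

/-- number of words for which the first customer is not satisfied at time `6 n` -/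
def S_RCNT : Prop :=
  ∀ n : ℕ, ((Finset.univ.filter fun x : Fin (6 * n) → Fin 3 =>
      (lf 6 (fun i => if h : i < 6 * n then x ⟨i, h⟩ else 0) (6 * n)).1 ≠ 0).card : ℝ) ≤
    (7 / 10) ^ n * 3 ^ (6 * n)

/-- one-dimensional version: joint law of the labels and the geometric variables -/
def S_LAW1 : Prop :=
  ∀ (L : ℕ), 0 < L → ∀ (F : Finset ℤ) (l : ℤ → Fin L) (t : ℤ → ℕ),
    (Measure.infinitePi fun _ : ℤ => pL L)
      {c | ∀ z ∈ F, (c z).1 = l z ∧ Tc 6 (fun n => (c (z + ((n / 6 : ℕ) : ℤ))).2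
        ⟨n % 6, Nat.mod_lt _ (by norm_num)⟩) = t z} =
      ∏ z ∈ F, ENNReal.ofReal (lam (t z) / L)

/-- the image of the i.i.d. letters are the i.i.d. inputs -/
def S_LAWD : Prop :=
  ∀ (d L : ℕ), 0 < L → Measurable (Psi : (Site (d + 1) → Lett L) → Inp (d + 1) L) ∧
    (Measure.infinitePi fun _ : Site (d + 1) => pL L).map Psi = P2 (d + 1) L

/-- exponential tail of the time at which a customer is satisfied -/
def S_RES : Prop :=
  ∀ (d L : ℕ), 0 < L → ∀ (v : Site (d + 1)) (n : ℕ),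
    (Measure.infinitePi fun _ : Site (d + 1) => pL L)
      {y | (lf 6 (strm y v) (6 * n)).1 ≠ 0} ≤ ENNReal.ofReal ((7 / 10) ^ n)

/-- locality and equivariance of `Psi` -/
def S_PSI : Prop :=
  ∀ (d L : ℕ), (∀ (u : Site (d + 1)) (y : Site (d + 1) → Lett L), Psi (shift u y) = shift u (Psi y)) ∧
    ∀ (y y' : Site (d + 1) → Lett L) (v : Site (d + 1)) (n : ℕ),
      (lf 6 (strm y v) (6 * n)).1 = 0 → (∀ u, l1 (u - v) ≤ n → y' u = y u) → Psi y' v = Psi y v

/-- final assembly -/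
def S_FINAL : Prop :=
  ∀ (d : ℕ) (β : ℝ), 1 ≤ d → 0 ≤ β → (β : EReal) < betaC d →
    ∃ μ : Measure (Cfg d), IsGibbs d β μ ∧ (∀ ν, IsGibbs d β ν → ν = μ) ∧ FvFfiidExp d μ

end Pool.Agent.Helper70.Isg
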